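import Pool.Agent.Helper750.OC.Base
import Pool.Agent.Helper750.CT.Defs

set_option autoImplicit false

namespace Pool.Agent.Helper750.OC.J_IsP_comp

open Pool.Agent.Helper750.OC

open Pool.Agent.Helper750.DC Pool.Agent.Helper750.CT Pool.Agent.Helper158.FCD Encodable

open Pool.Agent.Helper446.RE

section ipc_aux

variable {α β γ : Type} [Primcodable α] [Primcodable β] [Primcodable γ]

theorem ipc_ofNatL {f : α → ℕ} (hf : Computable f) :
    Computable fun x => Denumerable.ofNat (List ℕ) (f x) := by
  have h0 : Computable fun x => (decode (f x) : Option (List ℕ)) := by fun_prop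
  have h : Computable fun x => ((decode (f x) : Option (List ℕ))).getD [] :=
    Computable.option_getD h0 (Computable.const [])
  exact h.of_eq fun x => by simp [Denumerable.decode_eq_ofNat]

theorem ipc_map {l : α → List β} {g : α → β → γ} (hl : Computable l)
    (hg : Computable fun p : α × β => g p.1 p.2) : Computable fun x => (l x).map (g x) := by
  have h1 : Computable fun x : α × (List γ × β) => g x.1 x.2.2 :=
    hg.comp (g := fun x : α × (List γ × β) => (x.1, x.2.2)) (by fun_prop)
  have h2 : Computable₂ fun (a : α) (p : List γ × β) => p.1 ++ [g a p.2] :=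
    cappend (f := fun x : α × (List γ × β) => x.2.1) (g := fun x => [g x.1 x.2.2]) (by fun_prop)
      (ccons h1 (cconst []))
  have h := list_foldl (f := l) (g := fun _ => ([] : List γ)) hl (Computable.const _) h2
  refine h.of_eq fun a => ?_
  have h3 : ∀ (l : List β) (s : List γ),
      l.foldl (fun s b => s ++ [g a b]) s = s ++ l.map (g a) := by
    intro l
    induction l with
    | nil => intro s; simp
    | cons b l ih => intro s; simp [ih]
  simpa using h3 (l a) []

theorem ipc_all {q : α → ℕ → Bool} (hq : Computable fun p : α × ℕ => q p.1 p.2) {f : α → ℕ}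
    (hf : Computable f) : Computable fun a => allB (q a) (f a) := computable_allB hq hf

theorem ipc_ne [DecidableEq β] {f g : α → β} (hf : Computable f) (hg : Computable g) :
    Computable fun x => decide (f x ≠ g x) := cdecide (cp_eq hf hg).not

theorem ipc_eq [DecidableEq β] {f g : α → β} (hf : Computable f) (hg : Computable g) :
    Computable fun x => decide (f x = g x) := cdecide (cp_eq hf hg)

theorem ipc_nodup [DecidableEq β] {l : α → List β} (hl : Computable l) :
    Computable fun x => decide (l x).Nodup := by
  have h1 : Computable fun x => allB (fun i => allB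
      (fun j => decide ((l x)[j]? ≠ (l x)[i]?)) i) (l x).length := by
    refine ipc_all (q := fun x i => allB (fun j => decide ((l x)[j]? ≠ (l x)[i]?)) i) ?_
      (by fun_prop)
    refine ipc_all (α := α × ℕ) (q := fun p j => decide ((l p.1)[j]? ≠ (l p.1)[p.2]?)) ?_
      (by fun_prop)
    exact ipc_ne (by fun_prop) (by fun_prop)
  refine h1.of_eq fun x => ?_
  rw [Bool.eq_iff_iff, decide_eq_true_iff, List.nodup_iff_getElem?_ne_getElem?, allB_iff]
  constructor
  · intro h i j hij hj
    have h2 := (allB_iff _ _).1 (h j hj) i hij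
    simpa using h2
  · intro h i hi
    rw [allB_iff]
    intro j hj
    simpa using h j i hj hi

theorem ipc_bd {L k : α → ℕ} (hL : Computable L) (hk : Computable k) :
    Computable fun x => bd (L x) (k x) := by
  have h := Computable.nat_rec (α := α) (σ := ℕ) (f := k)
    (g := fun _ => 1) (h := fun x (y : ℕ × ℕ) => Nat.pair (L x) y.2 + 2) hk (by fun_prop)
    (by unfold Computable₂; fun_prop)
  refine h.of_eq fun x => ?_
  generalize k x = m
  induction m with
  | zero => rfl
  | succ m ih =>
    simp only at ih ⊢
    rw [bd, ← ih]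

end ipc_aux

/-- codes of short lists with small entries -/
theorem ipc_encode_lt_bd (L : ℕ) : ∀ (k : ℕ) (l : List ℕ), l.length ≤ k → (∀ x ∈ l, x < L) →
    encode l < bd L k := by
  intro k
  induction k with
  | zero =>
    intro l hl _
    have : l = [] := List.length_eq_zero_iff.1 (by omega)
    subst this
    simp [bd]
  | succ k ih =>
    intro l hl h
    cases l with
    | nil => simp [bd]
    | cons a l =>
      rw [Encodable.encode_list_cons]
      have h1 := ih l (by simp only [List.length_cons] at hl; omega) fun x hx => h x (by simp [hx])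
      have h2 : a < L := h a (by simp)
      have h3 : Nat.pair a (encode l) < Nat.pair L (encode l) := Nat.pair_lt_pair_left _ h2
      have h4 : Nat.pair L (encode l) < Nat.pair L (bd L k) := Nat.pair_lt_pair_right _ h1
      simp only [bd, Encodable.encode_nat] at *
      omega

theorem ipc_nodup_length_le {L : ℕ} {I : List ℕ} (h : I.Nodup) (hI : ∀ i ∈ I, i < L) :
    I.length ≤ L := by
  have h1 : I.toFinset ⊆ Finset.range L := by
    intro i hi
    rw [List.mem_toFinset] at hi
    exact Finset.mem_range.2 (hI i hi)
  have h2 := Finset.card_le_card h1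
  rw [List.toFinset_card_of_nodup h, Finset.card_range] at h2
  exact h2

/-- the Boolean test for `IsP` -/
def ipc_B (c c' : List ℕ → List Bool) (f : List (ℕ × ℕ)) : Bool :=
  decide (f.map Prod.fst).Nodup && (decide (f.map Prod.snd).Nodup &&
    allB (fun z => !(decide (Denumerable.ofNat (List ℕ) z).Nodup &&
      decide (∀ i ∈ Denumerable.ofNat (List ℕ) z, i < f.length)) ||
      decide (c ((Denumerable.ofNat (List ℕ) z).map fun i => ((f[i]?).getD (0, 0)).1) =
        c' ((Denumerable.ofNat (List ℕ) z).map fun i => ((f[i]?).getD (0, 0)).2)))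
      (bd f.length f.length))

theorem ipc_B_iff (c c' : List ℕ → List Bool) (f : List (ℕ × ℕ)) :
    ipc_B c c' f = true ↔ IsP c c' f := by
  unfold ipc_B IsP
  rw [Bool.and_eq_true, Bool.and_eq_true, decide_eq_true_iff, decide_eq_true_iff, allB_iff]
  refine and_congr Iff.rfl (and_congr Iff.rfl ?_)
  constructor
  · intro h I hI1 hI2
    have h2 := h (encode I) (ipc_encode_lt_bd _ _ _ (ipc_nodup_length_le hI1 hI2) hI2)
    rw [Denumerable.ofNat_encode] at h2
    rw [Bool.or_eq_true, Bool.not_eq_true', Bool.and_eq_false_iff] at h2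
    rcases h2 with (h2 | h2) | h2
    · exact absurd hI1 (of_decide_eq_false h2)
    · exact absurd hI2 (of_decide_eq_false h2)
    · exact of_decide_eq_true h2
  · intro h z _
    rw [Bool.or_eq_true, Bool.not_eq_true', Bool.and_eq_false_iff]
    by_cases h2 : (Denumerable.ofNat (List ℕ) z).Nodup
    · by_cases h3 : ∀ i ∈ Denumerable.ofNat (List ℕ) z, i < f.length
      · right
        exact decide_eq_true (h _ h2 h3)
      · left; right
        exact decide_eq_false h3
    · left; left
      exact decide_eq_false h2

theorem ipc_B_comp (c c' : List ℕ → List Bool) (hc : Computable c) (hc' : Computable c') :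
    Computable (ipc_B c c') := by
  unfold ipc_B
  have hn1 : Computable fun f : List (ℕ × ℕ) => decide (f.map Prod.fst).Nodup :=
    ipc_nodup (by fun_prop)
  have hn2 : Computable fun f : List (ℕ × ℕ) => decide (f.map Prod.snd).Nodup :=
    ipc_nodup (by fun_prop)
  have hlen : Computable fun f : List (ℕ × ℕ) => f.length := by fun_prop
  refine Pool.Agent.Helper446.RE.cand hn1 (Pool.Agent.Helper446.RE.cand hn2 ?_)
  refine ipc_all (q := fun (f : List (ℕ × ℕ)) z =>
      !(decide (Denumerable.ofNat (List ℕ) z).Nodup &&
      decide (∀ i ∈ Denumerable.ofNat (List ℕ) z, i < f.length)) ||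
      decide (c ((Denumerable.ofNat (List ℕ) z).map fun i => ((f[i]?).getD (0, 0)).1) =
        c' ((Denumerable.ofNat (List ℕ) z).map fun i => ((f[i]?).getD (0, 0)).2))) ?_
    (ipc_bd hlen hlen)
  have hof : Computable fun y : List (ℕ × ℕ) × ℕ => Denumerable.ofNat (List ℕ) y.2 :=
    ipc_ofNatL (by fun_prop)
  have h2 : Computable fun y : List (ℕ × ℕ) × ℕ =>
      decide (∀ i ∈ Denumerable.ofNat (List ℕ) y.2, i < y.1.length) := by
    apply cdecide
    refine cp_of_re ?_ ?_
    · exact all_mem (p := fun (y : List (ℕ × ℕ) × ℕ) i => i < y.1.length)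
        (lt (by fun_prop) (by fun_prop)) hof
    · have h3 := ex_mem (p := fun (y : List (ℕ × ℕ) × ℕ) i => y.1.length ≤ i)
        (l := fun y => Denumerable.ofNat (List ℕ) y.2)
        (le (by fun_prop) (by fun_prop)) hof
      refine h3.of_eq fun y => ?_
      push Not
      rfl
  have hg : Computable fun p : (List (ℕ × ℕ) × ℕ) × ℕ => ((p.1.1[p.2]?).getD (0, 0)) :=
    Computable.option_getD (f := fun p : (List (ℕ × ℕ) × ℕ) × ℕ => p.1.1[p.2]?)
      (g := fun _ => ((0, 0) : ℕ × ℕ)) (by fun_prop) (Computable.const _)
  have h3 : Computable fun y : List (ℕ × ℕ) × ℕ =>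
      (Denumerable.ofNat (List ℕ) y.2).map fun i => ((y.1[i]?).getD (0, 0)).1 :=
    ipc_map (g := fun (y : List (ℕ × ℕ) × ℕ) i => ((y.1[i]?).getD (0, 0)).1) hof (cfst hg)
  have h4 : Computable fun y : List (ℕ × ℕ) × ℕ =>
      (Denumerable.ofNat (List ℕ) y.2).map fun i => ((y.1[i]?).getD (0, 0)).2 :=
    ipc_map (g := fun (y : List (ℕ × ℕ) × ℕ) i => ((y.1[i]?).getD (0, 0)).2) hof (csnd hg)
  exact cor (cnot (Pool.Agent.Helper446.RE.cand (ipc_nodup hof) h2)) (ipc_eq (hc.comp h3) (hc'.comp h4))

open Classical in
theorem IsP_comp (c c' : List ℕ → List Bool) (hc : Computable c) (hc' : Computable c') :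
    Computable fun f => decide (IsP c c' f) := by
  refine (ipc_B_comp c c' hc hc').of_eq fun f => ?_
  rw [Bool.eq_iff_iff, decide_eq_true_iff, ipc_B_iff]

end Pool.Agent.Helper750.OC.J_IsP_comp
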