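import Pool.Agent.Helper750.OC.Base
import Pool.Agent.Helper750.CT.Defs

set_option autoImplicit false

namespace Pool.Agent.Helper750.OC.J_IsP_ext

open Pool.Agent.Helper750.OC

open Pool.Agent.Helper750.DC Pool.Agent.Helper750.CT Pool.Agent.Helper158.FCD Encodable

theorem IsP_ext_len_sx (a b : List Bool) (h : a.length = b.length) :
    (sx a b).length = a.length := by
  simp [sx, h]

theorem IsP_ext_tele (a b c : List Bool) (h1 : a.length = b.length) (h2 : b.length = c.length) :
    sx (sx a b) (sx b c) = sx a c := by
  apply List.ext_getElem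
  · simp [sx, h1, h2]
  · intro i hi hi'
    simp only [sx, List.getElem_zipWith]
    have key : ∀ x y z : Bool, ((x ^^ y) ^^ (y ^^ z)) = (x ^^ z) := by decide
    exact key _ _ _

theorem IsP_ext_self (a : List Bool) : sx a a = Z a.length := by
  apply List.ext_getElem
  · simp [sx, Z]
  · intro i hi hi'
    simp [sx, Z]

theorem IsP_ext_map_nodup (g : List (ℕ × ℕ)) (hg : (g.map Prod.fst).Nodup) (I : List ℕ)
    (hI : I.Nodup) (hlt : ∀ i ∈ I, i < g.length) :
    (I.map fun i => ((g[i]?).getD (0, 0)).1).Nodup := by
  apply List.Nodup.map_on _ hI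
  intro i hi j hj hij
  have h1 := hlt i hi
  have h2 := hlt j hj
  simp only [List.getElem?_eq_getElem h1, List.getElem?_eq_getElem h2, Option.getD_some] at hij
  have h1' : i < (g.map Prod.fst).length := by simpa using h1
  have h2' : j < (g.map Prod.fst).length := by simpa using h2
  have : (g.map Prod.fst)[i] = (g.map Prod.fst)[j] := by simpa using hij
  exact (hg.getElem_inj_iff).mp this

theorem IsP_ext {U : List Bool → Prop} (hU : IsU U) {B B' : ℕ → List Bool}
    {c c' : List ℕ → List Bool} (hc : IsG U B c) (hc' : IsG U B' c')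
    (hB : ∀ ℓ, (B ℓ).length = ℓ) (hB' : ∀ ℓ, (B' ℓ).length = ℓ)
    (hBB : ∀ ℓ, U (sx (B ℓ) (B' ℓ))) (f : List (ℕ × ℕ)) (hf : IsP c c' f) (a : ℕ)
    (ha : a ∉ f.map Prod.fst) : ∃ b, IsP c c' (f ++ [(a, b)]) := by
  classical
  obtain ⟨hf1, hf2, hf3⟩ := hf
  have hnd1 : ∀ b : ℕ, ((f ++ [(a, b)]).map Prod.fst).Nodup := by
    intro b
    rw [List.map_append]
    simp only [List.map_cons, List.map_nil]
    rw [List.nodup_append]
    refine ⟨hf1, List.nodup_singleton _, ?_⟩
    intro x hx y hy hxy
    rw [List.mem_singleton] at hy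
    subst hy
    subst hxy
    exact ha hx
  let π : List ℕ → List Bool := fun I =>
    if I.Nodup ∧ ∀ i ∈ I, i ≤ f.length then
      c (I.map fun i => (((f ++ [(a, 0)])[i]?).getD (0, 0)).1) else B' I.length
  have hπ : ∀ I, (π I).length = I.length ∧ U (sx (π I) (B' I.length)) := by
    intro I
    by_cases hI : I.Nodup ∧ ∀ i ∈ I, i ≤ f.length
    · have e : π I = c (I.map fun i => (((f ++ [(a, 0)])[i]?).getD (0, 0)).1) := if_pos hI
      rw [e]
      have hl : (c (I.map fun i => (((f ++ [(a, 0)])[i]?).getD (0, 0)).1)).length = I.length := by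
        rw [hc.len, List.length_map]
      refine ⟨hl, ?_⟩
      have hnd := IsP_ext_map_nodup (f ++ [(a, 0)]) (hnd1 0) I hI.1 (by
        intro i hi
        have := hI.2 i hi
        simp
        omega)
      have h1 := hc.mem _ hnd
      rw [List.length_map] at h1
      have h2 := hBB I.length
      have h3 := hU.add _ _ (by
        rw [IsP_ext_len_sx _ _ (by rw [hl, hB]), IsP_ext_len_sx _ _ (by rw [hB, hB']), hl, hB]) h1 h2
      rwa [IsP_ext_tele _ _ _ (by rw [hl, hB]) (by rw [hB, hB'])] at h3
    · have e : π I = B' I.length := if_neg hI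
      rw [e]
      refine ⟨hB' _, ?_⟩
      rw [IsP_ext_self, hB']
      exact hU.zero _
  obtain ⟨b, hb, hext⟩ := hc'.ext (f.map Prod.snd) π hf2 hπ
  refine ⟨b, hnd1 b, ?_, ?_⟩
  · rw [List.map_append]
    simp only [List.map_cons, List.map_nil]
    rw [List.nodup_append]
    refine ⟨hf2, List.nodup_singleton _, ?_⟩
    intro x hx y hy hxy
    rw [List.mem_singleton] at hy
    subst hy
    subst hxy
    exact hb hx
  · intro I hI hlt
    have hlt' : ∀ i ∈ I, i ≤ f.length := by
      intro i hi
      have := hlt i hi
      simp at this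
      omega
    by_cases hn : f.length ∈ I
    · have h1 := hext I hI (by simpa using hlt') (by simpa using hn)
      have e : π I = c (I.map fun i => (((f ++ [(a, 0)])[i]?).getD (0, 0)).1) :=
        if_pos ⟨hI, hlt'⟩
      rw [e] at h1
      have e1 : (I.map fun i => (((f ++ [(a, b)])[i]?).getD (0, 0)).1) =
          (I.map fun i => (((f ++ [(a, 0)])[i]?).getD (0, 0)).1) := by
        apply List.map_congr_left
        intro i hi
        have := hlt' i hi
        rcases this.lt_or_eq with h | h
        · rw [List.getElem?_append_left h, List.getElem?_append_left h]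
        · subst h
          simp
      have e2 : (I.map fun i => (((f ++ [(a, b)])[i]?).getD (0, 0)).2) =
          (I.map fun i => (f.map Prod.snd ++ [b]).getD i 0) := by
        apply List.map_congr_left
        intro i hi
        have := hlt' i hi
        rcases this.lt_or_eq with h | h
        · rw [List.getElem?_append_left h]
          rw [List.getD_eq_getElem?_getD, List.getElem?_append_left (by simpa using h)]
          simp [List.getElem?_eq_getElem h]
        · subst h
          simp [List.getD_eq_getElem?_getD]
      rw [e1, e2, h1]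
    · have hlt2 : ∀ i ∈ I, i < f.length := by
        intro i hi
        rcases (hlt' i hi).lt_or_eq with h | h
        · exact h
        · subst h; exact absurd hi hn
      have h1 := hf3 I hI hlt2
      have e1 : ∀ i ∈ I, (f ++ [(a, b)])[i]? = f[i]? := by
        intro i hi
        exact List.getElem?_append_left (hlt2 i hi)
      have e2 : (I.map fun i => (((f ++ [(a, b)])[i]?).getD (0, 0)).1) =
          (I.map fun i => ((f[i]?).getD (0, 0)).1) := by
        apply List.map_congr_left
        intro i hi
        rw [e1 i hi]
      have e3 : (I.map fun i => (((f ++ [(a, b)])[i]?).getD (0, 0)).2) =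
          (I.map fun i => ((f[i]?).getD (0, 0)).2) := by
        apply List.map_congr_left
        intro i hi
        rw [e1 i hi]
      rw [e2, e3, h1]

end Pool.Agent.Helper750.OC.J_IsP_ext
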