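import Pool.Agent.Helper750.OC.Constr

set_option autoImplicit false

namespace Pool.Agent.Helper750.OC.J_autoEquiv_symm

open Pool.Agent.Helper750.OC

open Pool.Agent.Helper750.DC Pool.Agent.Helper750.CT Encodable

theorem autoEquiv_symm_mem {L : Lang} {A : Str} {μ : ℕ → ℕ} (a b : ℕ) :
    ((Fml.eq 0 1).code, [a, b]) ∈ AD L A μ ↔ μ a = μ b := by
  constructor
  · rintro ⟨φ, hat, hcode, hsat⟩
    cases φ with
    | rel i vs =>
      exfalso
      simp only [Fml.code] at hcode
      have := (Nat.pair_eq_pair.1 hcode).1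
      omega
    | fn i vs w =>
      exfalso
      simp only [Fml.code] at hcode
      have := (Nat.pair_eq_pair.1 hcode).1
      omega
    | eq v w =>
      simp only [Fml.code] at hcode
      have h1 := (Nat.pair_eq_pair.1 hcode).2
      obtain ⟨rfl, rfl⟩ := Nat.pair_eq_pair.1 h1
      simpa [Sat] using hsat
    | not φ => exact hat.elim
    | and φ ψ => exact hat.elim
    | ex v φ => exact hat.elim
  · intro h
    refine ⟨Fml.eq 0 1, trivial, rfl, ?_⟩
    simpa [Sat] using h

theorem autoEquiv_symm {L : Lang} {A : Str} {ν μ : ℕ → ℕ} (hν : Function.Surjective ν)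
    (hμ : IsConstr L A μ) (h : AutoEquiv L A ν μ) : AutoEquiv L A μ ν := by
  obtain ⟨φ, ⟨hbij, hrel, hfn⟩, f, hf, hφ⟩ := h
  have hre : REPred fun x : ℕ × ℕ => μ (f x.2) = μ x.1 := by
    have h1 : Computable fun x : ℕ × ℕ => ((Fml.eq 0 1).code, [f x.2, x.1]) := by
      refine (Computable.const _).pair ?_
      exact Computable.list_cons.comp (hf.comp Computable.snd)
        (Computable.list_cons.comp Computable.fst (Computable.const []))
    have h2 := (Pool.Agent.Helper446.RE.cp_comp hμ.2 h1).to_re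
    refine h2.of_eq fun x => ?_
    exact autoEquiv_symm_mem _ _
  obtain ⟨F, hF, h1, h2⟩ := Pool.Agent.Helper446.RE.uniformize
    (r := fun m n => μ (f n) = μ m) hre
  have hdom : ∀ m, (F m).Dom := by
    intro m
    refine (h1 m).2 ?_
    obtain ⟨y, hy⟩ := hbij.2 (μ m)
    obtain ⟨n, hn⟩ := hν y
    exact ⟨n, by rw [← hφ, hn, hy]⟩
  let g : ℕ → ℕ := fun m => (F m).get (hdom m)
  have hg : Computable g := hF.of_eq_tot fun m => Part.get_mem (hdom m)
  have hgs : ∀ m, μ (f (g m)) = μ m := fun m => h2 m _ (Part.get_mem (hdom m))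
  obtain ⟨ψ, hl, hr⟩ := Function.bijective_iff_has_inverse.1 hbij
  have hl' : ∀ x, ψ (φ x) = x := hl
  have hr' : ∀ x, φ (ψ x) = x := hr
  have hmap : ∀ xs : List ℕ, (xs.map ψ).map φ = xs := by
    intro xs
    rw [List.map_map]
    conv_rhs => rw [← List.map_id xs]
    apply List.map_congr_left
    intro x _
    exact hr' x
  refine ⟨ψ, ⟨Function.bijective_iff_has_inverse.2 ⟨φ, hr, hl⟩, ?_, ?_⟩, g, hg, ?_⟩
  · intro i xs hi
    have := hrel i (xs.map ψ) (by simpa using hi)
    rw [hmap] at this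
    exact this.symm
  · intro i xs hi
    have := hfn i (xs.map ψ) (by simpa using hi)
    rw [hmap] at this
    rw [← this, hl']
  · intro m
    rw [← hgs m, ← hφ, hl']

end Pool.Agent.Helper750.OC.J_autoEquiv_symm
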