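import Pool.Agent.Helper750.OC.Base
import Pool.Agent.Helper750.CT.Defs

set_option autoImplicit false

namespace Pool.Agent.Helper750.OC.J_cbf

open Pool.Agent.Helper750.OC

open Pool.Agent.Helper750.DC Pool.Agent.Helper750.CT Pool.Agent.Helper158.FCD Encodable

theorem cbf_mem_comp {α : Type} [Primcodable α] [DecidableEq α] :
    Computable (fun x : α × List α => decide (x.1 ∈ x.2)) := by
  have h : Primrec (fun x : α × List α => decide (x.2.idxOf x.1 < x.2.length)) := by
    have h1 : PrimrecPred (fun x : α × List α => x.2.idxOf x.1 < x.2.length) :=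
      Primrec.nat_lt.comp (Primrec.list_idxOf.comp Primrec.fst Primrec.snd)
        (Primrec.list_length.comp Primrec.snd)
    exact h1.decide
  refine (h.to_comp).of_eq ?_
  intro x
  simp [List.idxOf_lt_length_iff]

theorem cbf_mem_nat : Computable (fun x : ℕ × List ℕ => decide (x.1 ∈ x.2)) := by
  refine (cbf_mem_comp (α := ℕ)).of_eq ?_
  intro x
  exact decide_eq_decide.2 Iff.rfl

theorem cbf_find {α : Type} [Primcodable α] (q : α → ℕ → Bool) (h : ∀ x, ∃ b, q x b = true)
    (hc : Computable (fun x : α × ℕ => q x.1 x.2)) : Computable (fun x => Nat.find (h x)) := by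
  refine Computable.find (P := fun x b => q x b = true) ⟨inferInstance, ?_⟩ h
  refine hc.of_eq ?_
  intro x
  simp

theorem cbf_g (F : ℕ → List (ℕ × ℕ)) (cF : Computable F) (h : ∀ a, ∃ b, (a, b) ∈ F (a + 1)) :
    Computable (fun a => Nat.find (h a)) := by
  have h1 : Computable (fun x : ℕ × ℕ => decide (x ∈ F (x.1 + 1))) := by
    refine ((cbf_mem_comp (α := ℕ × ℕ)).comp (Computable.pair Computable.id
      (cF.comp (Computable.succ.comp Computable.fst)))).of_eq ?_
    intro x
    exact decide_eq_decide.2 Iff.rfl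
  exact Computable.find (P := fun a b => (a, b) ∈ F (a + 1)) ⟨inferInstance, h1⟩ h

theorem cbf_F (s1 s2 : (List (ℕ × ℕ) × ℕ) → List (ℕ × ℕ)) (cs1 : Computable s1)
    (cs2 : Computable s2) : Computable (fun n : ℕ =>
    Nat.rec (motive := fun _ => List (ℕ × ℕ)) [] (fun m f => s2 (s1 (f, m), m)) n) := by
  have ch : Computable₂ (fun (_ : ℕ) (y : ℕ × List (ℕ × ℕ)) => s2 (s1 (y.2, y.1), y.1)) := by
    refine cs2.comp ?_
    refine Computable.pair ?_ (Computable.fst.comp Computable.snd)
    refine cs1.comp ?_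
    exact Computable.pair (Computable.snd.comp Computable.snd)
      (Computable.fst.comp Computable.snd)
  exact Computable.nat_rec (f := fun n : ℕ => n) (g := fun _ => []) Computable.id
    (Computable.const []) ch

theorem cbf (p : List (ℕ × ℕ) → Bool) (h0 : p [] = true)
    (hinj : ∀ f, p f = true → (f.map Prod.fst).Nodup ∧ (f.map Prod.snd).Nodup)
    (hf : ∀ f, p f = true → ∀ a, a ∉ f.map Prod.fst → ∃ b, p (f ++ [(a, b)]) = true)
    (hb : ∀ f, p f = true → ∀ b, b ∉ f.map Prod.snd → ∃ a, p (f ++ [(a, b)]) = true) :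
    ∃ (g : ℕ → ℕ) (F : ℕ → List (ℕ × ℕ)), (Computable p → Computable g) ∧
      Function.Bijective g ∧ (∀ n, p (F n) = true) ∧ (∀ n, ∀ q ∈ F n, q.2 = g q.1) ∧
      ∀ N, ∃ n, ∀ a < N, a ∈ (F n).map Prod.fst := by
  -- the total searches
  let q1 : (List (ℕ × ℕ) × ℕ) → ℕ → Bool := fun x b =>
    (p (x.1 ++ [(x.2, b)]) || !(p x.1)) || decide (x.2 ∈ x.1.map Prod.fst)
  let q2 : (List (ℕ × ℕ) × ℕ) → ℕ → Bool := fun x a =>
    (p (x.1 ++ [(a, x.2)]) || !(p x.1)) || decide (x.2 ∈ x.1.map Prod.snd)
  have e1 : ∀ x, ∃ b, q1 x b = true := by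
    intro x
    by_cases hp : p x.1 = true
    · by_cases hx : x.2 ∈ x.1.map Prod.fst
      · exact ⟨0, by simp only [q1, hx, decide_true, Bool.or_true]⟩
      · obtain ⟨b, hb'⟩ := hf x.1 hp x.2 hx
        exact ⟨b, by simp only [q1, hb', Bool.true_or]⟩
    · exact ⟨0, by simp only [q1, Bool.not_eq_true] at *; simp [hp]⟩
  have e2 : ∀ x, ∃ b, q2 x b = true := by
    intro x
    by_cases hp : p x.1 = true
    · by_cases hx : x.2 ∈ x.1.map Prod.snd
      · exact ⟨0, by simp only [q2, hx, decide_true, Bool.or_true]⟩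
      · obtain ⟨b, hb'⟩ := hb x.1 hp x.2 hx
        exact ⟨b, by simp only [q2, hb', Bool.true_or]⟩
    · exact ⟨0, by simp only [q2, Bool.not_eq_true] at *; simp [hp]⟩
  let n1 : (List (ℕ × ℕ) × ℕ) → ℕ := fun x => Nat.find (e1 x)
  let n2 : (List (ℕ × ℕ) × ℕ) → ℕ := fun x => Nat.find (e2 x)
  let s1 : (List (ℕ × ℕ) × ℕ) → List (ℕ × ℕ) := fun x =>
    bif decide (x.2 ∈ x.1.map Prod.fst) then x.1 else x.1 ++ [(x.2, n1 x)]
  let s2 : (List (ℕ × ℕ) × ℕ) → List (ℕ × ℕ) := fun x =>
    bif decide (x.2 ∈ x.1.map Prod.snd) then x.1 else x.1 ++ [(n2 x, x.2)]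
  have s1p : ∀ x, p x.1 = true → p (s1 x) = true ∧ x.2 ∈ (s1 x).map Prod.fst ∧ x.1 <+: s1 x := by
    intro x hp
    by_cases hx : x.2 ∈ x.1.map Prod.fst
    · have : s1 x = x.1 := by simp only [s1, hx, decide_true, cond_true]
      rw [this]
      exact ⟨hp, hx, List.prefix_refl _⟩
    · have e : s1 x = x.1 ++ [(x.2, n1 x)] := by
        simp only [s1, hx, decide_false, cond_false]
      rw [e]
      refine ⟨?_, by simp, List.prefix_append _ _⟩
      have h : q1 x (n1 x) = true := Nat.find_spec (e1 x)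
      generalize n1 x = k at h ⊢
      simp only [q1, hx, hp, decide_false, Bool.or_false, Bool.not_true] at h
      exact h
  have s2p : ∀ x, p x.1 = true → p (s2 x) = true ∧ x.2 ∈ (s2 x).map Prod.snd ∧ x.1 <+: s2 x := by
    intro x hp
    by_cases hx : x.2 ∈ x.1.map Prod.snd
    · have : s2 x = x.1 := by simp only [s2, hx, decide_true, cond_true]
      rw [this]
      exact ⟨hp, hx, List.prefix_refl _⟩
    · have e : s2 x = x.1 ++ [(n2 x, x.2)] := by
        simp only [s2, hx, decide_false, cond_false]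
      rw [e]
      refine ⟨?_, by simp, List.prefix_append _ _⟩
      have h : q2 x (n2 x) = true := Nat.find_spec (e2 x)
      generalize n2 x = k at h ⊢
      simp only [q2, hx, hp, decide_false, Bool.or_false, Bool.not_true] at h
      exact h
  obtain ⟨F, F0, FS, FC⟩ : ∃ F : ℕ → List (ℕ × ℕ), F 0 = [] ∧
      (∀ n, F (n + 1) = s2 (s1 (F n, n), n)) ∧
      (Computable s1 → Computable s2 → Computable F) :=
    ⟨fun n => Nat.rec (motive := fun _ => List (ℕ × ℕ)) [] (fun m f => s2 (s1 (f, m), m)) n,
      rfl, fun n => rfl, fun c1 c2 => cbf_F s1 s2 c1 c2⟩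
  have Fp : ∀ n, p (F n) = true := by
    intro n
    induction n with
    | zero => rw [F0]; exact h0
    | succ n ih => rw [FS]; exact (s2p _ (s1p (F n, n) ih).1).1
  have Fpre1 : ∀ n, s1 (F n, n) <+: F (n + 1) := by
    intro n
    rw [FS]
    exact (s2p (s1 (F n, n), n) (s1p (F n, n) (Fp n)).1).2.2
  have Fpre : ∀ n, F n <+: F (n + 1) := by
    intro n
    exact List.IsPrefix.trans (s1p (F n, n) (Fp n)).2.2 (Fpre1 n)
  have Fmono : ∀ n m, n ≤ m → F n <+: F m := by
    intro n m h
    induction m, h using Nat.le_induction with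
    | base => exact List.prefix_refl _
    | succ m _ ih => exact List.IsPrefix.trans ih (Fpre m)
  have Ffst : ∀ a, a ∈ (F (a + 1)).map Prod.fst := by
    intro a
    have h1 := (s1p (F a, a) (Fp a)).2.1
    exact (List.IsPrefix.map Prod.fst (Fpre1 a)).subset h1
  have Fsnd : ∀ b, b ∈ (F (b + 1)).map Prod.snd := by
    intro b
    rw [FS]
    exact (s2p (s1 (F b, b), b) (s1p (F b, b) (Fp b)).1).2.1
  have gex : ∀ a, ∃ b, (a, b) ∈ F (a + 1) := by
    intro a
    obtain ⟨q, hq, hqa⟩ := List.mem_map.1 (Ffst a)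
    refine ⟨q.2, ?_⟩
    have : (a, q.2) = q := by rw [← hqa]
    rw [this]
    exact hq
  let g : ℕ → ℕ := fun a => Nat.find (gex a)
  have gs : ∀ a, (a, g a) ∈ F (a + 1) := fun a => Nat.find_spec (gex a)
  have ginj : ∀ n, ∀ q ∈ F n, q.2 = g q.1 := by
    intro n q hq
    have h1 : q ∈ F (max n (q.1 + 1)) := (Fmono _ _ (le_max_left _ _)).subset hq
    have h2 : (q.1, g q.1) ∈ F (max n (q.1 + 1)) := (Fmono _ _ (le_max_right _ _)).subset (gs q.1)
    have h3 := (hinj _ (Fp (max n (q.1 + 1)))).1
    have h4 := List.inj_on_of_nodup_map h3 h1 h2 rfl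
    exact congrArg Prod.snd h4
  refine ⟨g, F, ?_, ⟨?_, ?_⟩, Fp, ginj, ?_⟩
  · intro hp
    have cq1 : Computable (fun x : (List (ℕ × ℕ) × ℕ) × ℕ => q1 x.1 x.2) := by
      have c1 : Computable (fun x : (List (ℕ × ℕ) × ℕ) × ℕ => p (x.1.1 ++ [(x.1.2, x.2)])) := by
        refine hp.comp ?_
        refine Computable.list_append.comp (Computable.fst.comp Computable.fst) ?_
        refine Computable.list_cons.comp ?_ (Computable.const [])
        exact Computable.pair (Computable.snd.comp Computable.fst) Computable.snd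
      have c2 : Computable (fun x : (List (ℕ × ℕ) × ℕ) × ℕ => !(p x.1.1)) :=
        Primrec.not.to_comp.comp (hp.comp (Computable.fst.comp Computable.fst))
      have c3 : Computable (fun x : (List (ℕ × ℕ) × ℕ) × ℕ =>
          decide (x.1.2 ∈ x.1.1.map Prod.fst)) := by
        have cm : Computable (fun x : (List (ℕ × ℕ) × ℕ) × ℕ => x.1.1.map Prod.fst) := by
          have : Primrec (fun x : (List (ℕ × ℕ) × ℕ) × ℕ => x.1.1.map Prod.fst) :=
            Primrec.list_map (Primrec.fst.comp Primrec.fst) (Primrec.fst.comp Primrec.snd).to₂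
          exact this.to_comp
        have c5 : Computable (fun x : (List (ℕ × ℕ) × ℕ) × ℕ => x.1.2) :=
          Computable.snd.comp Computable.fst
        have c6 := Computable.pair c5 cm
        exact (cbf_mem_nat.comp c6).of_eq (fun x => decide_eq_decide.2 Iff.rfl)
      have c4 := Primrec.or.to_comp.comp c1 c2
      have c5 := Primrec.or.to_comp.comp c4 c3
      exact c5
    have cq2 : Computable (fun x : (List (ℕ × ℕ) × ℕ) × ℕ => q2 x.1 x.2) := by
      have c1 : Computable (fun x : (List (ℕ × ℕ) × ℕ) × ℕ => p (x.1.1 ++ [(x.2, x.1.2)])) := by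
        refine hp.comp ?_
        refine Computable.list_append.comp (Computable.fst.comp Computable.fst) ?_
        refine Computable.list_cons.comp ?_ (Computable.const [])
        exact Computable.pair Computable.snd (Computable.snd.comp Computable.fst)
      have c2 : Computable (fun x : (List (ℕ × ℕ) × ℕ) × ℕ => !(p x.1.1)) :=
        Primrec.not.to_comp.comp (hp.comp (Computable.fst.comp Computable.fst))
      have c3 : Computable (fun x : (List (ℕ × ℕ) × ℕ) × ℕ =>
          decide (x.1.2 ∈ x.1.1.map Prod.snd)) := by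
        have cm : Computable (fun x : (List (ℕ × ℕ) × ℕ) × ℕ => x.1.1.map Prod.snd) := by
          have : Primrec (fun x : (List (ℕ × ℕ) × ℕ) × ℕ => x.1.1.map Prod.snd) :=
            Primrec.list_map (Primrec.fst.comp Primrec.fst) (Primrec.snd.comp Primrec.snd).to₂
          exact this.to_comp
        have c5 : Computable (fun x : (List (ℕ × ℕ) × ℕ) × ℕ => x.1.2) :=
          Computable.snd.comp Computable.fst
        have c6 := Computable.pair c5 cm
        exact (cbf_mem_nat.comp c6).of_eq (fun x => decide_eq_decide.2 Iff.rfl)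
      have c4 := Primrec.or.to_comp.comp c1 c2
      have c5 := Primrec.or.to_comp.comp c4 c3
      exact c5
    have cn1 : Computable n1 := cbf_find q1 e1 cq1
    have cn2 : Computable n2 := cbf_find q2 e2 cq2
    have cs1 : Computable s1 := by
      have c3 : Computable (fun x : List (ℕ × ℕ) × ℕ => decide (x.2 ∈ x.1.map Prod.fst)) := by
        have cm : Computable (fun x : List (ℕ × ℕ) × ℕ => x.1.map Prod.fst) := by
          have : Primrec (fun x : List (ℕ × ℕ) × ℕ => x.1.map Prod.fst) :=
            Primrec.list_map Primrec.fst (Primrec.fst.comp Primrec.snd).to₂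
          exact this.to_comp
        exact cbf_mem_nat.comp (Computable.pair Computable.snd cm)
      refine Computable.cond c3 Computable.fst ?_
      refine Computable.list_append.comp Computable.fst ?_
      refine Computable.list_cons.comp ?_ (Computable.const [])
      exact Computable.pair Computable.snd cn1
    have cs2 : Computable s2 := by
      have c3 : Computable (fun x : List (ℕ × ℕ) × ℕ => decide (x.2 ∈ x.1.map Prod.snd)) := by
        have cm : Computable (fun x : List (ℕ × ℕ) × ℕ => x.1.map Prod.snd) := by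
          have : Primrec (fun x : List (ℕ × ℕ) × ℕ => x.1.map Prod.snd) :=
            Primrec.list_map Primrec.fst (Primrec.snd.comp Primrec.snd).to₂
          exact this.to_comp
        exact cbf_mem_nat.comp (Computable.pair Computable.snd cm)
      refine Computable.cond c3 Computable.fst ?_
      refine Computable.list_append.comp Computable.fst ?_
      refine Computable.list_cons.comp ?_ (Computable.const [])
      exact Computable.pair cn2 Computable.snd
    have cF : Computable F := FC cs1 cs2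
    exact cbf_g F cF gex
  · intro a a' h
    have h1 : (a, g a) ∈ F (max (a + 1) (a' + 1)) := (Fmono _ _ (le_max_left _ _)).subset (gs a)
    have h2 : (a', g a') ∈ F (max (a + 1) (a' + 1)) := (Fmono _ _ (le_max_right _ _)).subset (gs a')
    have h3 := (hinj _ (Fp (max (a + 1) (a' + 1)))).2
    have h4 := List.inj_on_of_nodup_map h3 h1 h2 h
    exact congrArg Prod.fst h4
  · intro b
    obtain ⟨q, hq, hqb⟩ := List.mem_map.1 (Fsnd b)
    exact ⟨q.1, by rw [← ginj (b + 1) q hq, hqb]⟩
  · intro N
    refine ⟨N, fun a ha => ?_⟩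
    exact (List.IsPrefix.map Prod.fst (Fmono (a + 1) N ha)).subset (Ffst a)

end Pool.Agent.Helper750.OC.J_cbf
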