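import Pool.Agent.Helper750.OC.Base
import Pool.Agent.Helper750.CT.Defs

set_option autoImplicit false

namespace Pool.Agent.Helper750.OC.J_col_comp

open Pool.Agent.Helper750.OC

open Pool.Agent.Helper750.DC Pool.Agent.Helper750.CT Pool.Agent.Helper158.FCD Encodable
open Pool.Agent.Helper446.RE

section colcomp

variable {α β γ : Type} [Primcodable α] [Primcodable β] [Primcodable γ]

theorem cc_mx {l : α → List ℕ} (hl : Computable l) : Computable fun x => OC.mx (l x) := by
  have h : Primrec OC.mx :=
    (Primrec.list_foldr (f := fun l : List ℕ => l) (g := fun _ => 0)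
      (h := fun _ (p : ℕ × ℕ) => max p.1 p.2) Primrec.id (Primrec.const 0)
      (Primrec.nat_max.comp (Primrec.fst.comp Primrec.snd) (Primrec.snd.comp Primrec.snd)).to₂)
  exact h.to_comp.comp hl

theorem cc_look {T : α → List (List ℕ × List ℕ)} {ks : α → List ℕ} (hT : Computable T)
    (hks : Computable ks) : Computable fun x => look (T x) (ks x) := by
  have h : Primrec fun a : List (List ℕ × List ℕ) × List ℕ => look a.1 a.2 := by
    refine Primrec.list_foldr (f := fun a : List (List ℕ × List ℕ) × List ℕ => a.1)
      (g := fun _ => ([] : List ℕ))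
      (h := fun (a : List (List ℕ × List ℕ) × List ℕ) (p : (List ℕ × List ℕ) × List ℕ) =>
        if p.1.1 = a.2 then p.1.2 else p.2) Primrec.fst (Primrec.const []) ?_
    refine Primrec.ite (Primrec.eq.comp ?_ ?_) ?_ ?_
    · exact Primrec.fst.comp (Primrec.fst.comp Primrec.snd)
    · exact Primrec.snd.comp Primrec.fst
    · exact Primrec.snd.comp (Primrec.fst.comp Primrec.snd)
    · exact Primrec.snd.comp Primrec.snd
  exact h.to_comp.comp (cpair hT hks)

theorem cc_ofNat {f : α → ℕ} (hf : Computable f) :
    Computable fun x => Denumerable.ofNat (List (List ℕ × List ℕ)) (f x) := by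
  have h : Computable fun x => ((decode (f x) : Option (List (List ℕ × List ℕ)))).getD [] :=
    Computable.option_getD (cdecode hf) (cconst [])
  exact h.of_eq fun x => by simp [Denumerable.decode_eq_ofNat]

theorem cc_map {l : α → List β} {g : α → β → γ} (hl : Computable l)
    (hg : Computable fun p : α × β => g p.1 p.2) : Computable fun x => (l x).map (g x) := by
  have h1 : Computable fun x : α × (List γ × β) => g x.1 x.2.2 :=
    hg.comp (g := fun x : α × (List γ × β) => (x.1, x.2.2)) (by fun_prop)
  have h2 : Computable₂ fun (a : α) (p : List γ × β) => p.1 ++ [g a p.2] :=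
    cappend (f := fun x : α × (List γ × β) => x.2.1) (g := fun x => [g x.1 x.2.2]) (by fun_prop)
      (ccons h1 (cconst []))
  have h := list_foldl (f := l) (g := fun _ => ([] : List γ)) hl (Computable.const _) h2
  refine h.of_eq fun a => ?_
  have h3 : ∀ (l : List β) (s : List γ),
      l.foldl (fun s b => s ++ [g a b]) s = s ++ l.map (g a) := by
    intro l
    induction l with
    | nil => intro s; simp
    | cons b l ih => intro s; simp [ih]
  simpa using h3 (l a) []

theorem cc_cand {l : α → List ℕ} (hl : Computable l) : Computable fun x => OC.cand (l x) := by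
  have h1 : Computable fun x => (l x).map fun z => if z = OC.mx (l x) then 0 else z + 1 := by
    refine cc_map (g := fun x z => if z = OC.mx (l x) then 0 else z + 1) hl ?_
    refine cite (p := fun p : α × ℕ => p.2 = OC.mx (l p.1)) (cp_eq ?_ ?_) ?_ ?_
    · fun_prop
    · exact cc_mx (ccomp hl (by fun_prop))
    · fun_prop
    · fun_prop
  have h2 := cc_look (cc_ofNat (cfst (cunpair (cc_mx hl)))) h1
  refine cc_map (g := fun _ (b : ℕ) => decide (b = 1)) h2 ?_
  refine cdecide (cp_eq ?_ ?_)
  · fun_prop
  · fun_prop

theorem sx_eq_map (x y : List Bool) : sx x y =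
    (List.range (min x.length y.length)).map fun i => xor (x.getD i false) (y.getD i false) := by
  unfold sx
  apply List.ext_getElem
  · simp
  · intro i h1 h2
    simp only [List.length_zipWith, lt_min_iff] at h1
    rw [List.getElem_zipWith, List.getElem_map, List.getElem_range]
    rw [List.getD_eq_getElem _ _ h1.1, List.getD_eq_getElem _ _ h1.2]

theorem cc_sx {f g : α → List Bool} (hf : Computable f) (hg : Computable g) :
    Computable fun x => sx (f x) (g x) := by
  have h : Computable fun x => (List.range (min (f x).length (g x).length)).map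
      fun i => xor ((f x).getD i false) ((g x).getD i false) := by
    refine cc_map (g := fun x i => xor ((f x).getD i false) ((g x).getD i false))
      (Primrec.list_range.to_comp.comp (by fun_prop)) ?_
    have a0 : Computable fun p : α × ℕ => p.2 := by fun_prop
    have a1 : Computable fun p : α × ℕ => f p.1 := ccomp hf (by fun_prop)
    have a2 : Computable fun p : α × ℕ => g p.1 := ccomp hg (by fun_prop)
    have h1 : Computable fun p : α × ℕ => (f p.1).getD p.2 false :=
      (Primrec.list_getD false).to_comp.comp a1 a0
    have h2 : Computable fun p : α × ℕ => (g p.1).getD p.2 false :=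
      (Primrec.list_getD false).to_comp.comp a2 a0
    have hx : Primrec₂ xor := Primrec.dom_bool₂ _
    exact hx.to_comp.comp h1 h2
  exact h.of_eq fun x => (sx_eq_map _ _).symm

end colcomp

theorem col_comp (Est : ℕ → List Bool → Bool) (hE : Computable₂ Est) (B : ℕ → List Bool)
    (hB : Computable B) : Computable (col Est B) := by
  have h0 : Computable fun xs : List ℕ => OC.cand xs := cc_cand Computable.id
  have h1 : Computable fun xs : List ℕ => B xs.length := hB.comp (by fun_prop)
  have h2 : Computable fun xs : List ℕ => Est (OC.mx xs) (sx (OC.cand xs) (B xs.length)) :=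
    hE.comp (cc_mx Computable.id) (cc_sx h0 h1)
  have h3 : Computable fun xs : List ℕ => decide ((OC.cand xs).length = xs.length) :=
    cdecide (cp_eq (clength h0) (by fun_prop))
  exact ccond (Pool.Agent.Helper446.RE.cand h3 h2) h0 h1

end Pool.Agent.Helper750.OC.J_col_comp
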