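import Pool.Agent.Helper750.OC.Constr

set_option autoImplicit false

namespace Pool.Agent.Helper750.OC.J_copy_of_constr

open Pool.Agent.Helper750.OC

open Pool.Agent.Helper750.DC Pool.Agent.Helper750.CT Encodable

theorem cc_map {r : ℕ → ℕ} (hr : Computable r) : Computable fun xs : List ℕ => xs.map r := by
  have h1 : Computable fun xs : List ℕ =>
      (Nat.rec ([] : List ℕ) (fun n IH => IH ++ [r (xs.getD n 0)]) xs.length : List ℕ) := by
    refine Computable.nat_rec (f := fun xs : List ℕ => xs.length) (g := fun _ => ([] : List ℕ))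
      (h := fun xs p => p.2 ++ [r (xs.getD p.1 0)]) Computable.list_length (Computable.const _) ?_
    have h2 : Computable fun q : List ℕ × (ℕ × List ℕ) => q.2.2 ++ [r (q.1.getD q.2.1 0)] := by
      refine Computable.list_append.comp (Computable.snd.comp Computable.snd)
        (Computable.list_cons.comp (hr.comp ?_) (Computable.const []))
      exact (Primrec.list_getD 0).to_comp.comp Computable.fst (Computable.fst.comp Computable.snd)
    exact h2
  refine h1.of_eq fun xs => ?_
  have key : ∀ n ≤ xs.length,
      (Nat.rec ([] : List ℕ) (fun n IH => IH ++ [r (xs.getD n 0)]) n : List ℕ)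
        = (xs.take n).map r := by
    intro n
    induction n with
    | zero => intro _; simp
    | succ n ih =>
      intro hn
      have h2 := ih (by omega)
      show (Nat.rec ([] : List ℕ) (fun n IH => IH ++ [r (xs.getD n 0)]) n : List ℕ)
        ++ [r (xs.getD n 0)] = _
      rw [h2, List.take_succ_eq_append_getElem (by omega), List.map_append]
      congr 2
      simp [List.getD_eq_getElem?_getD, List.getElem?_eq_getElem (show n < xs.length by omega)]
  rw [key xs.length le_rfl, List.take_length]

theorem cc_eq_code {φ : Fml} {v w : ℕ} (h : φ.code = (Fml.eq v w).code) : φ = Fml.eq v w := by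
  cases φ with
  | rel i vs => simp [Fml.code, Nat.pair_eq_pair] at h
  | fn i vs u => simp [Fml.code, Nat.pair_eq_pair] at h
  | eq a b => simp only [Fml.code, Nat.pair_eq_pair, true_and] at h; rw [h.1, h.2]
  | not ψ => simp [Fml.code, Nat.pair_eq_pair] at h
  | and ψ χ => simp [Fml.code, Nat.pair_eq_pair] at h
  | ex u ψ => simp only [Fml.code, Nat.pair_eq_pair] at h; omega

theorem cc_rel_code {φ : Fml} {i : ℕ} {vs : List ℕ} (h : φ.code = (Fml.rel i vs).code) :
    φ = Fml.rel i vs := by
  cases φ with
  | rel j us =>
    simp only [Fml.code, Nat.pair_eq_pair, true_and] at h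
    rw [h.1, Encodable.encode_injective h.2]
  | fn i vs u => simp [Fml.code, Nat.pair_eq_pair] at h
  | eq a b => simp [Fml.code, Nat.pair_eq_pair] at h
  | not ψ => simp [Fml.code, Nat.pair_eq_pair] at h
  | and ψ χ => simp [Fml.code, Nat.pair_eq_pair] at h
  | ex u ψ => simp only [Fml.code, Nat.pair_eq_pair] at h; omega

theorem copy_of_constr
    (hrep : ∀ ρ : ℕ → ℕ, Function.Surjective ρ →
      (ComputablePred fun p : ℕ × ℕ => ρ p.1 = ρ p.2) →
      ∃ r : ℕ → ℕ, Computable r ∧ Function.Bijective fun n => ρ (r n))
    {A : Str} {ρ : ℕ → ℕ} (hρ : IsConstr LL A ρ) :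
    ∃ (r : ℕ → ℕ) (C : Str), Computable r ∧ IsComputableStr LL C ∧
      IsIso LL C A fun n => ρ (r n) := by
  obtain ⟨hsurj, hcp⟩ := hρ
  obtain ⟨D, hD, hDe⟩ := ComputablePred.computable_iff.1 hcp
  have hDi : ∀ p, D p = true ↔ p ∈ AD LL A ρ := fun p => (iff_of_eq (congrFun hDe p)).symm
  have heq : ∀ a b : ℕ, D ((Fml.eq 0 1).code, [a, b]) = true ↔ ρ a = ρ b := by
    intro a b
    rw [hDi]
    constructor
    · rintro ⟨φ, -, hc, hs⟩
      have hc' : φ.code = (Fml.eq 0 1).code := hc
      rw [cc_eq_code hc'] at hs
      simpa [Sat] using hs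
    · intro h
      exact ⟨Fml.eq 0 1, trivial, rfl, by simpa [Sat] using h⟩
  have hcomp : ComputablePred fun p : ℕ × ℕ => ρ p.1 = ρ p.2 := by
    rw [ComputablePred.computable_iff]
    refine ⟨fun p => D ((Fml.eq 0 1).code, [p.1, p.2]), ?_, ?_⟩
    · refine hD.comp (Computable.pair (Computable.const _) ?_)
      exact Computable.list_cons.comp Computable.fst
        (Computable.list_cons.comp Computable.snd (Computable.const []))
    · funext p
      exact propext (heq p.1 p.2).symm
  obtain ⟨r, hr, hb⟩ := hrep ρ hsurj hcomp
  refine ⟨r, ⟨fun n xs => A.R n (xs.map fun i => ρ (r i)), fun _ _ => 0⟩, hr, ⟨?_, ?_⟩, hb, ?_, ?_⟩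
  · refine ⟨fun p => D (Nat.pair 0 (Nat.pair p.1 (Encodable.encode (List.range p.1))), p.2.map r),
      ?_, ?_⟩
    · refine hD.comp (Computable.pair ?_ ((cc_map hr).comp Computable.snd))
      refine (Primrec₂.natPair.to_comp).comp (Computable.const 0)
        ((Primrec₂.natPair.to_comp).comp Computable.fst ?_)
      exact Computable.encode.comp (Primrec.list_range.to_comp.comp Computable.fst)
    · intro i xs hi
      have hi' : i = xs.length := by
        simpa [LL] using hi
      subst hi'
      show D ((Fml.rel xs.length (List.range xs.length)).code, xs.map r) = true ↔ _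
      rw [hDi]
      have hmap : (List.range xs.length).map (fun j => ρ ((xs.map r).getD j 0))
          = xs.map fun i => ρ (r i) := by
        apply List.ext_getElem
        · simp
        · intro k h1 h2
          have hk : k < xs.length := by simpa using h1
          simp [List.getD_eq_getElem?_getD, hk]
      constructor
      · rintro ⟨φ, -, hc, hs⟩
        have hc' : φ.code = (Fml.rel xs.length (List.range xs.length)).code := hc
        rw [cc_rel_code hc'] at hs
        have h2 := hs.2
        show A.R xs.length (xs.map fun i => ρ (r i))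
        rw [← hmap]
        exact h2
      · intro h
        refine ⟨Fml.rel xs.length (List.range xs.length), trivial, rfl, ?_, ?_⟩
        · simp [LL]
        · show A.R xs.length ((List.range xs.length).map (fun j => ρ ((xs.map r).getD j 0)))
          rw [hmap]
          exact h
  · exact ⟨fun _ => 0, Computable.const 0, fun i xs hi => rfl⟩
  · intro i xs _
    exact Iff.rfl
  · intro i xs hi
    exact absurd hi (by simp [LL])

end Pool.Agent.Helper750.OC.J_copy_of_constr
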