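import Pool.Agent.Helper750.OC.Constr

set_option autoImplicit false

namespace Pool.Agent.Helper750.OC.J_exists_rep

open Pool.Agent.Helper750.OC

open Pool.Agent.Helper750.DC Pool.Agent.Helper750.CT Encodable

/-- `true` iff `ρ y ≠ ρ x` for all `y < n` -/
def orp_g (f : ℕ × ℕ → Bool) (x n : ℕ) : Bool :=
  Nat.rec true (fun k b => b && !(f (k, x))) n

theorem orp_g_comp {f : ℕ × ℕ → Bool} (hf : Computable f) :
    Computable (fun x : ℕ => orp_g f x x) := by
  unfold orp_g
  have h : Computable₂ (fun (x : ℕ) (p : ℕ × Bool) => (p.2 && !(f (p.1, x)))) := by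
    have h1 : Computable (fun q : ℕ × (ℕ × Bool) => f (q.2.1, q.1)) :=
      hf.comp (Computable.pair (Computable.fst.comp Computable.snd) Computable.fst)
    have h2 : Computable (fun q : ℕ × (ℕ × Bool) => q.2.2) :=
      Computable.snd.comp Computable.snd
    exact (Primrec.and.to_comp.comp h2 (Primrec.not.to_comp.comp h1))
  exact Computable.nat_rec Computable.id (Computable.const true) h

theorem orp_g_iff (ρ : ℕ → ℕ) {f : ℕ × ℕ → Bool} (hf : ∀ p, f p = true ↔ ρ p.1 = ρ p.2) (x n : ℕ) :
    orp_g f x n = true ↔ ∀ y < n, ρ y ≠ ρ x := by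
  induction n with
  | zero => simp [orp_g]
  | succ n ih =>
    have : orp_g f x (n + 1) = (orp_g f x n && !(f (n, x))) := rfl
    rw [this, Bool.and_eq_true, ih, Bool.not_eq_true', Bool.eq_false_iff]
    constructor
    · rintro ⟨h1, h2⟩ y hy
      rcases Nat.lt_succ_iff_lt_or_eq.1 hy with h | h
      · exact h1 y h
      · rw [h]; exact fun h3 => h2 ((hf (n, x)).2 h3)
    · intro h
      exact ⟨fun y hy => h y (by omega), fun h3 => h n (by omega) ((hf (n, x)).1 h3)⟩

theorem exists_rep (ρ : ℕ → ℕ) (hρ : Function.Surjective ρ)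
    (hE : ComputablePred fun p : ℕ × ℕ => ρ p.1 = ρ p.2) :
    ∃ r : ℕ → ℕ, Computable r ∧ Function.Bijective fun n => ρ (r n) := by
  classical
  obtain ⟨f, hfc, hfp⟩ := ComputablePred.computable_iff.1 hE
  have hf : ∀ p, f p = true ↔ ρ p.1 = ρ p.2 := by
    intro p
    have := congrFun hfp p
    exact (iff_of_eq this).symm
  -- the computable set of new elements
  let nw : ℕ → Bool := fun x => orp_g f x x
  have hnw : ∀ x, nw x = true ↔ ∀ y < x, ρ y ≠ ρ x := fun x => orp_g_iff ρ hf x x
  have hnwc : Computable nw := orp_g_comp hfc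
  -- the least representative of a value
  have hrep : ∀ y, ∃ x, ρ x = y ∧ nw x = true := by
    intro y
    have h := hρ y
    refine ⟨Nat.find h, Nat.find_spec h, (hnw _).2 ?_⟩
    intro z hz h1
    exact Nat.find_min h hz (h1.trans (Nat.find_spec h))
  have hinf : ∀ n, ∃ m, nw (n + m) = true := by
    intro n
    obtain ⟨y, hy⟩ := Infinite.exists_notMem_finset ((Finset.range n).image ρ)
    obtain ⟨x, hx, hxn⟩ := hrep y
    have hle : n ≤ x := by
      by_contra hlt
      push Not at hlt
      apply hy
      rw [← hx]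
      exact Finset.mem_image_of_mem ρ (Finset.mem_range.2 hlt)
    exact ⟨x - n, by rwa [Nat.add_sub_cancel' hle]⟩
  let mu : ℕ → ℕ := fun n => Nat.find (hinf n)
  have hmuc : Computable mu := by
    have h1 : Partrec₂ (fun (n m : ℕ) => (Part.some (nw (n + m)) : Part Bool)) := by
      have : Computable (fun q : ℕ × ℕ => nw (q.1 + q.2)) :=
        hnwc.comp (Primrec.nat_add.to_comp.comp Computable.fst Computable.snd)
      exact this.partrec
    refine Partrec.of_eq_tot (Partrec.rfind h1) ?_
    intro n
    refine Nat.mem_rfind.2 ⟨?_, ?_⟩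
    · rw [Part.mem_some_iff]
      exact (Nat.find_spec (hinf n)).symm
    · intro m hm
      rw [Part.mem_some_iff]
      have := Nat.find_min (hinf n) hm
      rw [Bool.not_eq_true] at this
      exact this.symm
  let nx : ℕ → ℕ := fun n => n + mu n
  have hnxc : Computable nx := Primrec.nat_add.to_comp.comp Computable.id hmuc
  have hnx1 : ∀ n, nw (nx n) = true := fun n => Nat.find_spec (hinf n)
  have hnx2 : ∀ n, n ≤ nx n := fun n => Nat.le_add_right _ _
  have hnx3 : ∀ n x, n ≤ x → nw x = true → nx n ≤ x := by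
    intro n x h1 h2
    have h3 : mu n ≤ x - n := Nat.find_min' (hinf n) (by rwa [Nat.add_sub_cancel' h1])
    show n + mu n ≤ x
    omega
  let r : ℕ → ℕ := fun n => Nat.rec (nx 0) (fun _ b => nx (b + 1)) n
  have hr0 : r 0 = nx 0 := rfl
  have hrs : ∀ n, r (n + 1) = nx (r n + 1) := fun n => rfl
  have hrc : Computable r := by
    have h : Computable₂ (fun (x : ℕ) (p : ℕ × ℕ) => nx (p.2 + 1)) := by
      have h1 : Computable (fun q : ℕ × (ℕ × ℕ) => q.2.2 + 1) :=
        Computable.succ.comp (Computable.snd.comp Computable.snd)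
      exact hnxc.comp h1
    exact Computable.nat_rec Computable.id (Computable.const (nx 0)) h
  have hrn : ∀ n, nw (r n) = true := by
    intro n
    cases n with
    | zero => exact hnx1 0
    | succ n => exact hnx1 _
  have hmono : StrictMono r := by
    apply strictMono_nat_of_lt_succ
    intro n
    rw [hrs]
    have := hnx2 (r n + 1)
    omega
  refine ⟨r, hrc, ?_, ?_⟩
  · intro m n hmn
    simp only at hmn
    by_contra hne
    rcases Nat.lt_or_gt_of_ne hne with h | h
    · exact (hnw (r n)).1 (hrn n) (r m) (hmono h) hmn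
    · exact (hnw (r m)).1 (hrn m) (r n) (hmono h) hmn.symm
  · intro y
    obtain ⟨x, hx, hxn⟩ := hrep y
    -- x is in the range of r
    have hkey : ∀ n, x < r n → ∃ k, r k = x := by
      intro n
      induction n with
      | zero =>
        intro h
        exact absurd (hnx3 0 x (Nat.zero_le _) hxn) (not_le.2 h)
      | succ n ih =>
        intro h
        rcases Nat.lt_trichotomy x (r n) with h1 | h1 | h1
        · exact ih h1
        · exact ⟨n, h1.symm⟩
        · have := hnx3 (r n + 1) x h1 hxn
          rw [← hrs] at this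
          omega
    obtain ⟨k, hk⟩ := hkey (x + 1) (by
      have := hmono.id_le (x + 1)
      simp only [id] at this
      omega)
    exact ⟨k, by show ρ (r k) = y; rw [hk, hx]⟩

end Pool.Agent.Helper750.OC.J_exists_rep
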