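import Pool.Agent.Helper750.OC.Base
import Pool.Agent.Helper750.CT.Defs

set_option autoImplicit false

namespace Pool.Agent.Helper750.OC.J_exists_z

open Pool.Agent.Helper750.OC

open Pool.Agent.Helper750.DC Pool.Agent.Helper750.CT Pool.Agent.Helper158.FCD Encodable

theorem exists_z (U : List Bool → Prop) (hU : IsU U) (F : ℕ → List Bool)
    (lenF : ∀ ℓ, (F ℓ).length = ℓ) (cohF : ∀ k ℓ, k ≤ ℓ → U (sx ((F ℓ).take k) (F k))) :
    ∃ z : ℕ → Bool, ∀ ℓ, U (sx (pre z ℓ) (F ℓ)) := by
  classical
  let z : ℕ → Bool := fun i =>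
    decide (∀ᶠ n in (Filter.hyperfilter ℕ : Filter ℕ), (F n).getD i false = true)
  refine ⟨z, ?_⟩
  intro ℓ
  have h1 : ∀ i, ∀ᶠ n in (Filter.hyperfilter ℕ : Filter ℕ), (F n).getD i false = z i := by
    intro i
    by_cases h : ∀ᶠ n in (Filter.hyperfilter ℕ : Filter ℕ), (F n).getD i false = true
    · have hz : z i = true := by
        show decide _ = true
        exact decide_eq_true h
      rw [hz]
      exact h
    · have hz : z i = false := by
        show decide _ = false
        exact decide_eq_false h
      rw [hz]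
      have h' := (Ultrafilter.eventually_not (f := Filter.hyperfilter ℕ)).2 h
      refine h'.mono ?_
      intro n hn
      simpa using hn
  have h2 : ∀ᶠ n in (Filter.hyperfilter ℕ : Filter ℕ), ∀ i ∈ Finset.range ℓ,
      (F n).getD i false = z i := by
    rw [Filter.eventually_all_finset]
    intro i _
    exact h1 i
  have h3 : ∀ᶠ n in (Filter.hyperfilter ℕ : Filter ℕ), ℓ ≤ n := by
    have h4 : (Filter.hyperfilter ℕ : Filter ℕ) ≤ Filter.atTop := by
      rw [← Nat.cofinite_eq_atTop]
      exact Filter.hyperfilter_le_cofinite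
    exact h4 (Filter.eventually_ge_atTop ℓ)
  obtain ⟨n, hn, hln⟩ := (h2.and h3).exists
  have h5 : pre z ℓ = (F n).take ℓ := by
    refine List.ext_getElem ?_ ?_
    · simp [pre, lenF, hln]
    · intro i h6 h7
      have hi : i < ℓ := by
        simpa [pre] using h6
      have h8 := hn i (Finset.mem_range.2 hi)
      have hiF : i < (F n).length := by
        rw [lenF]
        omega
      rw [List.getD_eq_getElem _ _ hiF] at h8
      simp only [pre, List.getElem_map, List.getElem_range, List.getElem_take]
      exact h8.symm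
  rw [h5]
  exact cohF ℓ n hln

end Pool.Agent.Helper750.OC.J_exists_z
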