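import Pool.Agent.Helper750.OC.Base
import Pool.Agent.Helper750.CT.Defs

set_option autoImplicit false

namespace Pool.Agent.Helper750.OC.J_fin_types

open Pool.Agent.Helper750.OC

open Pool.Agent.Helper750.DC Pool.Agent.Helper750.CT Pool.Agent.Helper158.FCD Encodable

theorem fin_types {U : List Bool → Prop} (hU : IsU U) {B : ℕ → List Bool}
    (hB : ∀ ℓ, (B ℓ).length = ℓ) {c : List ℕ → List Bool} (hc : IsG U B c)
    (hsat : ∀ (φ : Fml) (V : Finset ℕ) (x y : ℕ → ℕ), (∀ v, Free φ v → v ∈ V) → PJ c c V x y →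
      (Sat LL (MC c) φ x ↔ Sat LL (MC c) φ y)) (k : ℕ) :
    {q | ∃ x, q = tp LL (MC c) k x}.Finite := by
  classical
  let E : Set (ℕ × ℕ) := ↑(Finset.range k ×ˢ Finset.range k)
  have hE : E.Finite := Finset.finite_toSet _
  have hfl : {vs : List ℕ | vs.Nodup ∧ ∀ v ∈ vs, v < k}.Finite := by
    have h1 : {l : List (Fin k) | l.length ≤ k}.Finite := List.finite_length_le (Fin k) k
    refine (h1.image (List.map Fin.val)).subset ?_
    rintro vs ⟨hnd, hlt⟩
    lift vs to List (Fin k) using hlt
    refine ⟨vs, ?_, rfl⟩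
    have h2 : vs.Nodup := List.Nodup.of_map _ hnd
    simpa using h2.length_le_card
  have hfb : {b : List Bool | b.length ≤ k}.Finite := List.finite_length_le Bool k
  let Q : Set (List ℕ × List Bool) :=
    {vs : List ℕ | vs.Nodup ∧ ∀ v ∈ vs, v < k} ×ˢ {b : List Bool | b.length ≤ k}
  have hQ : Q.Finite := hfl.prod hfb
  let data : (ℕ → ℕ) → Set (ℕ × ℕ) × Set (List ℕ × List Bool) := fun x =>
    ({p | p ∈ E ∧ x p.1 = x p.2}, {p | p ∈ Q ∧ c (p.1.map x) = p.2})
  have hdata : (Set.range data).Finite := by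
    refine (hE.finite_subsets.prod hQ.finite_subsets).subset ?_
    rintro _ ⟨x, rfl⟩
    exact ⟨fun p hp => hp.1, fun p hp => hp.1⟩
  have hPJ : ∀ x y, data x = data y → PJ c c (Finset.range k) x y := by
    intro x y hxy
    have h1 : ∀ p : ℕ × ℕ, (p ∈ E ∧ x p.1 = x p.2) ↔ (p ∈ E ∧ y p.1 = y p.2) := by
      intro p
      have := congrArg Prod.fst hxy
      exact Set.ext_iff.1 this p
    have h2 : ∀ p : List ℕ × List Bool,
        (p ∈ Q ∧ c (p.1.map x) = p.2) ↔ (p ∈ Q ∧ c (p.1.map y) = p.2) := by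
      intro p
      have := congrArg Prod.snd hxy
      exact Set.ext_iff.1 this p
    constructor
    · intro u hu v hv
      have hp : (u, v) ∈ E := by
        simp only [E, Finset.coe_product, Set.mem_prod, Finset.mem_coe]
        exact ⟨hu, hv⟩
      have := h1 (u, v)
      simp only [hp, true_and] at this
      exact this
    · intro vs hV hnd
      have hvn : vs.Nodup := List.Nodup.of_map _ hnd
      have hlt : ∀ v ∈ vs, v < k := fun v hv => Finset.mem_range.1 (hV v hv)
      have hmk : vs.length ≤ k := by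
        have h3 : vs.toFinset ⊆ Finset.range k := by
          intro v hv
          exact Finset.mem_range.2 (hlt v (List.mem_toFinset.1 hv))
        have h4 := Finset.card_le_card h3
        rwa [List.toFinset_card_of_nodup hvn, Finset.card_range] at h4
      have hp : (vs, c (vs.map x)) ∈ Q := by
        refine ⟨⟨hvn, hlt⟩, ?_⟩
        show (c (vs.map x)).length ≤ k
        rw [hc.len, List.length_map]
        exact hmk
      exact ((h2 (vs, c (vs.map x))).1 ⟨hp, rfl⟩).2.symm
  have hfac : ∀ x y, data x = data y → tp LL (MC c) k x = tp LL (MC c) k y := by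
    intro x y hxy
    ext φ
    simp only [tp, Set.mem_ofPred_eq]
    refine and_congr_right fun hφ => ?_
    exact hsat φ (Finset.range k) x y (fun v hv => Finset.mem_range.2 (hφ v hv)) (hPJ x y hxy)
  refine (hdata.image fun D => tp LL (MC c) k (Function.invFun data D)).subset ?_
  rintro _ ⟨x, rfl⟩
  refine ⟨data x, ⟨x, rfl⟩, ?_⟩
  apply hfac
  exact Function.invFun_eq ⟨x, rfl⟩

end Pool.Agent.Helper750.OC.J_fin_types
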