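import Pool.Agent.Helper750.OC.Base
import Pool.Agent.Helper750.CT.Defs

set_option autoImplicit false

namespace Pool.Agent.Helper750.OC.J_isG_shift

open Pool.Agent.Helper750.OC

open Pool.Agent.Helper750.DC Pool.Agent.Helper750.CT Pool.Agent.Helper158.FCD Encodable

theorem isG_shift_len (x y : List Bool) (n : ℕ) (hx : x.length = n) (hy : y.length = n) :
    (sx x y).length = n := by
  unfold sx
  rw [List.length_zipWith, hx, hy, min_self]

theorem isG_shift_pre (w : ℕ → Bool) (n : ℕ) : (pre w n).length = n := by
  unfold pre
  rw [List.length_map, List.length_range]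

/-- cancellation of the base point -/
theorem isG_shift_alg (x p b q : List Bool) (n : ℕ) (hx : x.length = n) (hp : p.length = n)
    (hb : b.length = n) (hq : q.length = n) :
    sx (sx x b) (sx (sx p b) q) = sx (sx x p) q := by
  apply List.ext_getElem
  · rw [isG_shift_len _ _ n (isG_shift_len _ _ n hx hb)
      (isG_shift_len _ _ n (isG_shift_len _ _ n hp hb) hq),
      isG_shift_len _ _ n (isG_shift_len _ _ n hx hp) hq]
  · intro i h1 h2
    unfold sx
    simp only [List.getElem_zipWith]
    generalize x[i]'_ = a1
    generalize b[i]'_ = a2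
    generalize p[i]'_ = a3
    generalize q[i]'_ = a4
    revert a1 a2 a3 a4
    decide

theorem isG_shift_alg2 (x p b q : List Bool) (n : ℕ) (hx : x.length = n) (hp : p.length = n)
    (hb : b.length = n) (hq : q.length = n) :
    sx (sx x q) (sx (sx p b) q) = sx (sx x p) b := by
  apply List.ext_getElem
  · rw [isG_shift_len _ _ n (isG_shift_len _ _ n hx hq)
      (isG_shift_len _ _ n (isG_shift_len _ _ n hp hb) hq),
      isG_shift_len _ _ n (isG_shift_len _ _ n hx hp) hb]
  · intro i h1 h2
    unfold sx
    simp only [List.getElem_zipWith]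
    generalize x[i]'_ = a1
    generalize b[i]'_ = a2
    generalize p[i]'_ = a3
    generalize q[i]'_ = a4
    revert a1 a2 a3 a4
    decide

theorem isG_shift_alg3 (x p : List Bool) (n : ℕ) (hx : x.length = n) (hp : p.length = n) :
    sx (sx x p) p = x := by
  apply List.ext_getElem
  · rw [isG_shift_len _ _ n (isG_shift_len _ _ n hx hp) hp, hx]
  · intro i h1 h2
    unfold sx
    simp only [List.getElem_zipWith]
    generalize x[i]'_ = a1
    generalize p[i]'_ = a3
    revert a1 a3
    decide

theorem isG_shift {U : List Bool → Prop} (hU : IsU U) {B B' : ℕ → List Bool}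
    {c : List ℕ → List Bool} (hc : IsG U B c)
    (hB : ∀ ℓ, (B ℓ).length = ℓ) (hB' : ∀ ℓ, (B' ℓ).length = ℓ)
    (g g' : ℕ → ℕ) (h1 : ∀ a, g' (g a) = a) (h2 : ∀ b, g (g' b) = b) (w : ℕ → Bool)
    (hw : ∀ ℓ, U (sx (sx (pre w ℓ) (B ℓ)) (B' ℓ))) (c' : List ℕ → List Bool)
    (hlen : ∀ xs, (c' xs).length = xs.length)
    (hc' : ∀ S : List ℕ, S.Nodup → c' S = sx (c (S.map g')) (pre w S.length)) :
    IsG U B' c' := by
  have hinj : Function.Injective g' := fun a b hab => by
    rw [← h2 a, ← h2 b, hab]
  have hpre := isG_shift_pre w
  refine ⟨hlen, ?_, ?_⟩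
  · intro xs hxs
    rw [hc' xs hxs]
    have h3 := hc.mem (xs.map g') (hxs.map hinj)
    rw [List.length_map] at h3
    have hcl : (c (xs.map g')).length = xs.length := by rw [hc.len, List.length_map]
    have h4 := hU.add _ _ (by
      rw [isG_shift_len _ _ xs.length hcl (hB _), isG_shift_len _ _ xs.length
        (isG_shift_len _ _ xs.length (hpre _) (hB _)) (hB' _)]) h3 (hw xs.length)
    rwa [isG_shift_alg _ _ _ _ xs.length hcl (hpre _) (hB _) (hB' _)] at h4
  · intro as π has hπ
    obtain ⟨b, hb, hb2⟩ := hc.ext (as.map g') (fun I => sx (π I) (pre w I.length))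
      (has.map hinj) (by
        intro I
        refine ⟨isG_shift_len _ _ _ (hπ I).1 (hpre _), ?_⟩
        have h4 := hU.add _ _ (by
          rw [isG_shift_len _ _ I.length (hπ I).1 (hB' _), isG_shift_len _ _ I.length
            (isG_shift_len _ _ I.length (hpre _) (hB _)) (hB' _)]) (hπ I).2 (hw I.length)
        rwa [isG_shift_alg2 _ _ _ _ I.length (hπ I).1 (hpre _) (hB _) (hB' _)] at h4)
    refine ⟨g b, ?_, ?_⟩
    · intro h
      apply hb
      rw [← h1 b]
      exact List.mem_map_of_mem h
    · intro I hI hI2 hI3
      have hgb : g b ∉ as := by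
        intro h
        apply hb
        rw [← h1 b]
        exact List.mem_map_of_mem h
      have hnd : (as ++ [g b]).Nodup := by
        rw [List.nodup_append]
        refine ⟨has, List.nodup_singleton _, ?_⟩
        intro x hx y hy
        rw [List.mem_singleton] at hy
        subst hy
        intro hxy
        subst hxy
        exact hgb hx
      have hlt : ∀ i ∈ I, i < (as ++ [g b]).length := by
        intro i hi
        rw [List.length_append, List.length_singleton]
        exact Nat.lt_succ_of_le (hI2 i hi)
      have hS : (I.map fun i => (as ++ [g b]).getD i 0).Nodup := by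
        refine hI.map_on ?_
        intro i hi j hj hij
        rw [List.getD_eq_getElem _ _ (hlt i hi), List.getD_eq_getElem _ _ (hlt j hj)] at hij
        exact (hnd.getElem_inj_iff).1 hij
      have hmap : (I.map fun i => (as ++ [g b]).getD i 0).map g' =
          I.map fun i => (as.map g' ++ [b]).getD i 0 := by
        rw [List.map_map]
        apply List.map_congr_left
        intro i hi
        have hl : i < (as.map g' ++ [b]).length := by
          have := hlt i hi
          rw [List.length_append, List.length_singleton] at this ⊢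
          rwa [List.length_map]
        show g' ((as ++ [g b]).getD i 0) = _
        rw [List.getD_eq_getElem _ _ (hlt i hi), List.getD_eq_getElem _ _ hl]
        have e : as.map g' ++ [b] = (as ++ [g b]).map g' := by
          rw [List.map_append, List.map_singleton, h1]
        simp only [e, List.getElem_map]
      rw [hc' _ hS, hmap, hb2 I hI (fun i hi => by rw [List.length_map]; exact hI2 i hi)
        (by rw [List.length_map]; exact hI3), List.length_map]
      exact isG_shift_alg3 _ _ _ (hπ I).1 (hpre _)

end Pool.Agent.Helper750.OC.J_isG_shift
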