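import Pool.Agent.Helper750.OC.Base
import Pool.Agent.Helper750.CT.Defs

set_option autoImplicit false

namespace Pool.Agent.Helper750.OC.J_iso_of

open Pool.Agent.Helper750.OC

open Pool.Agent.Helper750.DC Pool.Agent.Helper750.CT Pool.Agent.Helper158.FCD Encodable

theorem iso_of_getD (x : List Bool) (z : ℕ → Bool) (m k : ℕ) (hm : x.length = m) (hk : k < m) :
    (sx x (pre z m)).getD k false = xor (x.getD k false) (z k) := by
  subst hm
  have h1 : k < (List.zipWith xor x ((List.range x.length).map z)).length := by
    simp [hk]
  unfold sx pre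
  rw [List.getD_eq_getElem _ _ h1, List.getElem_zipWith, List.getElem_map, List.getElem_range,
    List.getD_eq_getElem _ _ hk]

theorem iso_of (c c' : List ℕ → List Bool) (hc : ∀ xs, (c xs).length = xs.length)
    (hc' : ∀ xs, (c' xs).length = xs.length) (z : ℕ → Bool) (C : Str)
    (hC : ∀ N xs, xs.length = N → (C.R N xs ↔ Rl c' N xs)) (g : ℕ → ℕ)
    (hg : Function.Bijective g)
    (h : ∀ xs : List ℕ, xs.Nodup → c' (xs.map g) = sx (c xs) (pre z xs.length)) :
    IsIso LL (MC c) C g := by
  refine ⟨hg, ?_, ?_⟩
  · intro i xs hi
    have hi' : i = xs.length := by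
      simpa [LL] using hi
    subst hi'
    rw [hC xs.length (xs.map g) (by rw [List.length_map])]
    change Rl c xs.length xs ↔ Rl c' xs.length (xs.map g)
    unfold Rl
    set n := (xs.length - 1).unpair.1 with hn
    set k := (xs.length - 1).unpair.2 with hk
    rw [← List.map_take, ← List.map_drop, ← List.map_take, List.nodup_map_iff hg.1,
      List.nodup_map_iff hg.1]
    apply and_congr_right
    intro hkn
    apply and_congr_right
    intro h1
    apply and_congr_right
    intro h2
    have hle : n + k ≤ xs.length - 1 := by
      have := Nat.add_le_pair n k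
      rwa [hn, hk, Nat.pair_unpair] at this
    have hl : n + k + 1 ≤ xs.length := by omega
    have l1 : (xs.take n).length = n := by rw [List.length_take]; omega
    have l2 : ((xs.drop n).take (k + 1)).length = k + 1 := by
      rw [List.length_take, List.length_drop]; omega
    rw [h _ h1, h _ h2, iso_of_getD _ z _ k (hc _) (by omega),
      iso_of_getD _ z _ k (hc _) (by omega)]
    constructor
    · intro h3; rw [h3]
    · intro h3; exact Bool.xor_left_inj.mp h3
  · intro i xs hi
    simp [LL] at hi

end Pool.Agent.Helper750.OC.J_iso_of
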