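import Pool.Agent.Helper750.OC.Base
import Pool.Agent.Helper750.CT.Defs

set_option autoImplicit false

namespace Pool.Agent.Helper750.OC.J_mcol_eq

open Pool.Agent.Helper750.OC

open Pool.Agent.Helper750.DC Pool.Agent.Helper750.CT Pool.Agent.Helper158.FCD Encodable

theorem mcol_eq_aux (c : List ℕ → List Bool) (C : Str)
    (g g' : ℕ → ℕ) (hg : IsIso LL (MC c) C g) (h2 : ∀ b, g (g' b) = b)
    (S : List ℕ) (hS : S.Nodup) (k : ℕ) (hk : k < S.length) :
    C.R (Nat.pair S.length k + 1) (refs S k) ↔
      (c (S.map g')).getD k false = (c ((List.range (k + 1)).map g')).getD k false := by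
  have hinj : Function.Injective g' := fun a b h => by rw [← h2 a, h, h2 b]
  have hle := Nat.add_le_pair S.length k
  have hlen : (refs S k).length = Nat.pair S.length k + 1 := by
    unfold refs
    rw [List.length_append, List.length_append, List.length_range, List.length_replicate]
    omega
  have hmap : ((refs S k).map g').map g = refs S k := by
    rw [List.map_map]
    have : g ∘ g' = id := funext h2
    rw [this, List.map_id]
  have h3 := hg.2.1 (Nat.pair S.length k + 1) ((refs S k).map g') (by
    rw [List.length_map, hlen]; rfl)
  rw [hmap] at h3
  rw [← h3]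
  show Rl c _ _ ↔ _
  unfold Rl
  rw [Nat.add_sub_cancel, Nat.unpair_pair]
  have ht : ((refs S k).map g').take S.length = S.map g' := by
    unfold refs
    rw [List.map_append, List.take_left' (by simp)]
  have hd : (((refs S k).map g').drop S.length).take (k + 1) = (List.range (k + 1)).map g' := by
    unfold refs
    rw [List.map_append, List.drop_left' (by simp), List.map_append, List.take_left' (by simp)]
  simp only
  rw [ht, hd]
  constructor
  · rintro ⟨-, -, -, h⟩
    exact h
  · intro h
    exact ⟨hk, hS.map hinj, List.nodup_range.map hinj, h⟩

theorem mcol_eq (c : List ℕ → List Bool) (hc : ∀ xs, (c xs).length = xs.length) (C : Str)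
    (g g' : ℕ → ℕ) (hg : IsIso LL (MC c) C g) (h1 : ∀ a, g' (g a) = a) (h2 : ∀ b, g (g' b) = b)
    (S : List ℕ) (hS : S.Nodup) :
    mcol C S = sx (c (S.map g'))
      (pre (fun k => (c ((List.range (k + 1)).map g')).getD k false) S.length) := by
  have hl1 : (c (S.map g')).length = S.length := by rw [hc, List.length_map]
  apply List.ext_getElem
  · unfold mcol sx pre
    rw [List.length_map, List.length_range, List.length_zipWith, hl1, List.length_map,
      List.length_range, min_self]
  · intro k hk hk'
    have hkS : k < S.length := by
      unfold mcol at hk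
      rwa [List.length_map, List.length_range] at hk
    have h3 := mcol_eq_aux c C g g' hg h2 S hS k hkS
    unfold mcol sx pre
    rw [List.getElem_map, List.getElem_range, List.getElem_zipWith, List.getElem_map,
      List.getElem_range]
    have h4 : (c (S.map g'))[k]'(by rw [hl1]; exact hkS) = (c (S.map g')).getD k false := by
      rw [List.getD_eq_getElem _ _ (by rw [hl1]; exact hkS)]
    rw [h4]
    generalize (c (S.map g')).getD k false = x at *
    generalize (c ((List.range (k + 1)).map g')).getD k false = y at *
    simp only [h3]
    cases x <;> cases y <;> rfl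

end Pool.Agent.Helper750.OC.J_mcol_eq
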