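import Pool.Agent.Helper750.OC.J_isG_col
import Pool.Agent.Helper750.OC.J_col_comp
import Pool.Agent.Helper750.OC.J_IsP_ext
import Pool.Agent.Helper750.OC.J_cbf
import Pool.Agent.Helper750.OC.J_IsP_comp
import Pool.Agent.Helper750.OC.J_exists_z
import Pool.Agent.Helper750.OC.J_mcol_eq
import Pool.Agent.Helper750.OC.J_isG_shift
import Pool.Agent.Helper750.OC.J_iso_of
import Pool.Agent.Helper750.OC.J_fin_types
import Pool.Agent.Helper750.OC.J_exists_rep
import Pool.Agent.Helper750.OC.J_autoEquiv_symm
import Pool.Agent.Helper750.OC.J_constr_of_copy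
import Pool.Agent.Helper750.OC.J_copy_of_constr

set_option autoImplicit false

namespace Pool.Agent.Helper750.OC

alias isG_col := J_isG_col.isG_col
alias col_comp := J_col_comp.col_comp
alias IsP_ext := J_IsP_ext.IsP_ext
alias cbf := J_cbf.cbf
alias IsP_comp := J_IsP_comp.IsP_comp
alias exists_z := J_exists_z.exists_z
alias mcol_eq := J_mcol_eq.mcol_eq
alias isG_shift := J_isG_shift.isG_shift
alias iso_of := J_iso_of.iso_of
alias fin_types := J_fin_types.fin_types
alias exists_rep := J_exists_rep.exists_rep
alias autoEquiv_symm := J_autoEquiv_symm.autoEquiv_symm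
alias constr_of_copy := J_constr_of_copy.constr_of_copy
alias copy_of_constr := J_copy_of_constr.copy_of_constr

end Pool.Agent.Helper750.OC
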