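import Pool.Agent.Helper750.CT.Base
import Pool.Agent.Helper158.FCD.Interface

set_option autoImplicit false

/-!
Generic colourings of finite sequences by cosets of subgroups of `(ℤ/2)^ℓ`, and the associated
countably categorical structure.
-/

namespace Pool.Agent.Helper750.OC

open Pool.Agent.Helper750.DC Pool.Agent.Helper750.CT Pool.Agent.Helper158.FCD Encodable

/-- maximum of a list -/
def mx (l : List ℕ) : ℕ := l.foldr max 0

/-- the base point `0` -/
def Z (ℓ : ℕ) : List Bool := List.replicate ℓ false

/-- the first entry for the key `ks` in the table -/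
def look (T : List (List ℕ × List ℕ)) (ks : List ℕ) : List ℕ :=
  T.foldr (fun p acc => if p.1 = ks then p.2 else acc) []

/-- the colour proposed for `xs` by its maximum -/
def cand (xs : List ℕ) : List Bool :=
  (look (Denumerable.ofNat (List (List ℕ × List ℕ)) (mx xs).unpair.1)
    (xs.map fun z => if z = mx xs then 0 else z + 1)).map fun b => decide (b = 1)

/-- The colouring: sequences of length `ℓ` are coloured by elements of `B ℓ + U ℓ`. -/
def col (Est : ℕ → List Bool → Bool) (B : ℕ → List Bool) (xs : List ℕ) : List Bool :=
  bif decide ((cand xs).length = xs.length) && Est (mx xs) (sx (cand xs) (B xs.length))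
    then cand xs else B xs.length

/-- `col` is a generic colouring of the sequences of distinct elements of length `ℓ` by elements
of the coset `B ℓ + U`. -/
structure IsG (U : List Bool → Prop) (B : ℕ → List Bool) (col : List ℕ → List Bool) : Prop where
  len : ∀ xs, (col xs).length = xs.length
  mem : ∀ xs, xs.Nodup → U (sx (col xs) (B xs.length))
  ext : ∀ (as : List ℕ) (π : List ℕ → List Bool), as.Nodup →
    (∀ I, (π I).length = I.length ∧ U (sx (π I) (B I.length))) →
    ∃ a, a ∉ as ∧ ∀ I : List ℕ, I.Nodup → (∀ i ∈ I, i ≤ as.length) → as.length ∈ I →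
      col (I.map fun i => (as ++ [a]).getD i 0) = π I

/-- The relation `Q_N` with `N = ⟨n, c⟩ + 1`, `c < n`, holds of a sequence of length `N` if
the first `n` elements are distinct, the next `c + 1` elements are distinct, and the colours of
these two sequences have the same coordinate `c`. -/
def Rl (col : List ℕ → List Bool) (N : ℕ) (xs : List ℕ) : Prop :=
  (N - 1).unpair.2 < (N - 1).unpair.1 ∧
  (xs.take (N - 1).unpair.1).Nodup ∧
  ((xs.drop (N - 1).unpair.1).take ((N - 1).unpair.2 + 1)).Nodup ∧
  (col (xs.take (N - 1).unpair.1)).getD (N - 1).unpair.2 false =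
    (col ((xs.drop (N - 1).unpair.1).take ((N - 1).unpair.2 + 1))).getD (N - 1).unpair.2 false

/-- The structure (in the language with one relation symbol of each arity) of a colouring. -/
def MC (col : List ℕ → List Bool) : Str := ⟨Rl col, fun _ _ => 0⟩

/-- `f` (a list of pairs) is a partial isomorphism between the colourings. -/
def IsP (c c' : List ℕ → List Bool) (f : List (ℕ × ℕ)) : Prop :=
  (f.map Prod.fst).Nodup ∧ (f.map Prod.snd).Nodup ∧
  ∀ I : List ℕ, I.Nodup → (∀ i ∈ I, i < f.length) →
    c (I.map fun i => ((f[i]?).getD (0, 0)).1) = c' (I.map fun i => ((f[i]?).getD (0, 0)).2)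

/-- The map `x v ↦ y v` (`v ∈ V`) is a partial isomorphism between the colourings. -/
def PJ (c c' : List ℕ → List Bool) (V : Finset ℕ) (x y : ℕ → ℕ) : Prop :=
  (∀ u ∈ V, ∀ v ∈ V, (x u = x v ↔ y u = y v)) ∧
  ∀ vs : List ℕ, (∀ v ∈ vs, v ∈ V) → (vs.map x).Nodup → c (vs.map x) = c' (vs.map y)

/-- the sequence used as a reference for the comparison of a sequence `S` at the coordinate `c`:
`Q_N` with `N = ⟨|S|, c⟩ + 1` is applied to `S, 0, ..., c, 0, ..., 0` -/
def refs (S : List ℕ) (c : ℕ) : List ℕ :=
  S ++ (List.range (c + 1) ++ List.replicate (Nat.pair S.length c + 1 - (S.length + (c + 1))) 0)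

open Classical in
/-- the colour of `S` in the structure `C`, relative to the colours of the sequences
`0, ..., c` -/
noncomputable def mcol (C : Str) (S : List ℕ) : List Bool :=
  (List.range S.length).map fun c => !(decide (C.R (Nat.pair S.length c + 1) (refs S c)))

/-- `U` is a system of subgroups (closed under restriction). -/
structure IsU (U : List Bool → Prop) : Prop where
  zero : ∀ ℓ, U (Z ℓ)
  add : ∀ x y, x.length = y.length → U x → U y → U (sx x y)
  restr : ∀ x k, U x → U (x.take k)

end Pool.Agent.Helper750.OC
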