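import Pool.Agent.Helper750.CT.Base

set_option autoImplicit false

/-!
Constructivizations, autoequivalence, effectively infinite structures.
-/

namespace Pool.Agent.Helper750.OC

open Pool.Agent.Helper750.DC Pool.Agent.Helper750.CT Encodable

/-- The (unnested) atomic formulas. -/
def IsAtomic : Fml → Prop
  | .rel _ _ => True
  | .fn _ _ _ => True
  | .eq _ _ => True
  | _ => False

/-- The atomic diagram of `A` with the element `ν i` named by the constant `c_i`: the set of pairs
`(φ, [i_0, ..., i_{k-1}])` such that the atomic formula `φ` (given by its Goedel number) holds in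
`A` for `x_j = ν i_j` (and `x_j = ν 0` for `j ≥ k`). -/
def AD (L : Lang) (A : Str) (ν : ℕ → ℕ) : Set (ℕ × List ℕ) :=
  {p | ∃ φ, IsAtomic φ ∧ φ.code = p.1 ∧ Sat L A φ fun i => ν (p.2.getD i 0)}

/-- `ν` is a constructivization of the structure `A` (with universe `ℕ`): a map of `ω` onto the
universe of `A` such that the atomic diagram is computable. -/
def IsConstr (L : Lang) (A : Str) (ν : ℕ → ℕ) : Prop :=
  Function.Surjective ν ∧ ComputablePred fun p => p ∈ AD L A ν

/-- Two constructivizations are autoequivalent. -/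
def AutoEquiv (L : Lang) (A : Str) (ν μ : ℕ → ℕ) : Prop :=
  ∃ φ : ℕ → ℕ, IsIso L A A φ ∧ ∃ f : ℕ → ℕ, Computable f ∧ ∀ n, φ (ν n) = μ (f n)

/-- The structure `A` has dimension `2`: there are two constructivizations which are not
autoequivalent, and every constructivization is autoequivalent to one of them. -/
def DimTwo (L : Lang) (A : Str) : Prop :=
  ∃ ν μ, IsConstr L A ν ∧ IsConstr L A μ ∧ ¬ AutoEquiv L A ν μ ∧
    ∀ ρ, IsConstr L A ρ → AutoEquiv L A ρ ν ∨ AutoEquiv L A ρ μ

open Classical in
/-- `e` is an index of the effective sequence `(A, ν 0), (A, ν 1), ...` of constructive models: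
the set `{(i, p) | p ∈ AD (A, ν i)}` is computable with index `e`. -/
def IsSeqIndex (L : Lang) (A : Str) (ν : ℕ → ℕ → ℕ) (e : ℕ) : Prop :=
  (∀ i, Function.Surjective (ν i)) ∧
  ∀ (i : ℕ) (p : ℕ × List ℕ), (Denumerable.ofNat Nat.Partrec.Code e).eval (encode (i, p)) =
    Part.some (if p ∈ AD L A (ν i) then 1 else 0)

open Classical in
/-- `c` is an index of the constructive model `(A, ν)`. -/
def IsConstrIndex (L : Lang) (A : Str) (ν : ℕ → ℕ) (c : ℕ) : Prop :=
  Function.Surjective ν ∧
  ∀ p : ℕ × List ℕ, (Denumerable.ofNat Nat.Partrec.Code c).eval (encode p) =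
    Part.some (if p ∈ AD L A ν then 1 else 0)

/-- `A` is effectively infinite: there is an algorithm which, given an index of any effective
sequence `(A, ν i)` of constructive models, outputs (an index of) a constructivization `μ` of `A`
such that `(A, μ)` is computably isomorphic to no `(A, ν i)`. -/
def EffInf (L : Lang) (A : Str) : Prop :=
  ∃ h : ℕ →. ℕ, Nat.Partrec h ∧ ∀ (e : ℕ) (ν : ℕ → ℕ → ℕ), IsSeqIndex L A ν e →
    ∃ c ∈ h e, ∃ μ, IsConstrIndex L A μ c ∧
      ∀ i, ¬ AutoEquiv L A μ (ν i)

end Pool.Agent.Helper750.OC
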