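import Pool.Agent.Helper750.OC.Final

set_option autoImplicit false

namespace Pool.Agent.Helper750.OC

open Pool.Agent.Helper750.DC Pool.Agent.Helper750.CT Pool.Agent.Helper158.FCD Encodable
open Nat.Partrec

theorem dimTwo (T : TorsorData) : DimTwo LL (MC (cA T)) := by
  obtain ⟨g, hg⟩ := isoAB T
  obtain ⟨g', h1, h2⟩ := Function.bijective_iff_has_inverse.1 hg.1
  have hg' := iso_symm' hg h1 h2
  have c1 : IsConstr LL (MC (cA T)) fun a => a :=
    constr_of_copy (MC_comp _ (cA_comp T)) (iso_id _)
  have c2 : IsConstr LL (MC (cA T)) g' := constr_of_copy (MC_comp _ (cB_comp T)) hg'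
  refine ⟨fun a => a, g', c1, c2, ?_, ?_⟩
  · rintro ⟨φ, hφ, f, hf, hff⟩
    apply not_isoAB T
    refine ⟨f, hf, ?_⟩
    have h3 : f = fun n => g (φ n) := by
      funext n
      rw [hff n, h2]
    rw [h3]
    exact iso_trans' hφ hg
  · intro ρ hρ
    obtain ⟨r, C, hr, hC, hCA⟩ := copy_of_constr exists_rep hρ
    obtain ⟨k, k1, k2⟩ := Function.bijective_iff_has_inverse.1 hCA.1
    rcases dichAB T C hC ⟨k, iso_symm' hCA k1 k2⟩ with ⟨f, hf, hf2⟩ | ⟨f, hf, hf2⟩
    · left
      refine autoEquiv_symm c1.1 hρ ⟨_, iso_trans' hf2 hCA, fun n => r (f n), hr.comp hf,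
        fun n => rfl⟩
    · right
      refine autoEquiv_symm c2.1 hρ ⟨_, iso_trans' (iso_trans' hg hf2) hCA, fun n => r (f n),
        hr.comp hf, fun n => ?_⟩
      simp only
      rw [h2]

theorem isConstr_of_index {L : Lang} {A : Str} {μ : ℕ → ℕ} {c : ℕ} (h : IsConstrIndex L A μ c) :
    IsConstr L A μ := by
  classical
  refine ⟨h.1, ?_⟩
  rw [ComputablePred.computable_iff]
  have h2 : Partrec fun p : ℕ × List ℕ =>
      (Denumerable.ofNat Code c).eval (encode p) :=
    (Code.eval_part.comp (Computable.const _) Computable.encode)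
  have h3 : Computable fun p : ℕ × List ℕ => if p ∈ AD L A μ then 1 else 0 := by
    refine h2.of_eq fun p => ?_
    rw [h.2 p]
    congr
  refine ⟨fun p => decide ((if p ∈ AD L A μ then 1 else 0) = 1), ?_, ?_⟩
  · exact (Pool.Agent.Helper446.RE.cdecide (Pool.Agent.Helper446.RE.cp_eq h3
      (Computable.const 1)))
  · funext p
    by_cases hp : p ∈ AD L A μ <;> simp [hp]

theorem not_effInf {L : Lang} {A : Str} (h : DimTwo L A) : ¬ EffInf L A := by
  classical
  obtain ⟨ν, μ, hν, hμ, _, hd⟩ := h
  rintro ⟨a, _, ha⟩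
  obtain ⟨d1, hd1, e1⟩ := ComputablePred.computable_iff.1 hν.2
  obtain ⟨d2, hd2, e2⟩ := ComputablePred.computable_iff.1 hμ.2
  have hc : Computable fun q : ℕ × (ℕ × List ℕ) =>
      bif decide (q.1 = 0) then (bif d1 q.2 then 1 else 0) else (bif d2 q.2 then 1 else 0) := by
    refine Computable.cond (Pool.Agent.Helper446.RE.cdecide (Pool.Agent.Helper446.RE.cp_eq
      Computable.fst (Computable.const 0))) ?_ ?_
    · exact Computable.cond (hd1.comp Computable.snd) (Computable.const 1) (Computable.const 0)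
    · exact Computable.cond (hd2.comp Computable.snd) (Computable.const 1) (Computable.const 0)
  obtain ⟨e, he⟩ := Code.exists_code.1 hc
  have hidx : IsSeqIndex L A (fun i => if i = 0 then ν else μ) (encode e) := by
    refine ⟨?_, ?_⟩
    · intro i
      by_cases hi : i = 0
      · simp only [hi, if_true]; exact hν.1
      · simp only [hi, if_false]; exact hμ.1
    · intro i p
      have h3 := congrFun he (encode (i, p))
      simp only [encodek, Part.coe_some, Part.bind_some] at h3
      rw [Denumerable.ofNat_encode, h3]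
      have e1' : p ∈ AD L A ν ↔ d1 p = true := iff_of_eq (congrFun e1 p)
      have e2' : p ∈ AD L A μ ↔ d2 p = true := iff_of_eq (congrFun e2 p)
      by_cases hi : i = 0
      · by_cases h5 : d1 p = true
        · have h6 := e1'.2 h5
          simp [hi, h5, h6]
        · have h6 : ¬ p ∈ AD L A ν := fun h => h5 (e1'.1 h)
          simp [hi, h5, h6]
      · by_cases h5 : d2 p = true
        · have h6 := e2'.2 h5
          simp [hi, h5, h6]
        · have h6 : ¬ p ∈ AD L A μ := fun h => h5 (e2'.1 h)
          simp [hi, h5, h6]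
  obtain ⟨c, _, ρ, hρ, hn⟩ := ha _ _ hidx
  rcases hd ρ (isConstr_of_index hρ) with h4 | h4
  · exact hn 0 (by simpa using h4)
  · exact hn 1 (by simpa using h4)

end Pool.Agent.Helper750.OC
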