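import Pool.Agent.Helper750.OC.Main
import Pool.Agent.Helper750.CT.Comp

set_option autoImplicit false

namespace Pool.Agent.Helper750.OC

open Pool.Agent.Helper750.DC Pool.Agent.Helper750.CT Pool.Agent.Helper158.FCD Encodable

theorem iso_symm' {A B : Str} {f g : ℕ → ℕ} (hf : IsIso LL A B f) (h1 : ∀ a, g (f a) = a)
    (h2 : ∀ b, f (g b) = b) : IsIso LL B A g := by
  refine ⟨⟨fun a b hab => ?_, fun a => ⟨f a, h1 a⟩⟩, fun i xs hi => ?_, fun i xs hi => ?_⟩
  · rw [← h2 a, ← h2 b, hab]
  · have h3 : (xs.map g).map f = xs := by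
      rw [List.map_map]
      conv_rhs => rw [← List.map_id xs]
      exact List.map_congr_left fun x _ => h2 x
    have h4 := hf.2.1 i (xs.map g) (by rw [List.length_map]; exact hi)
    rw [h3] at h4
    exact h4.symm
  · simp [LL] at hi

theorem iso_trans' {A B C : Str} {f g : ℕ → ℕ} (hf : IsIso LL A B f) (hg : IsIso LL B C g) :
    IsIso LL A C fun a => g (f a) := by
  refine ⟨hg.1.comp hf.1, fun i xs hi => ?_, fun i xs hi => ?_⟩
  · rw [hf.2.1 i xs hi, hg.2.1 i (xs.map f) (by rw [List.length_map]; exact hi), List.map_map]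
    rfl
  · simp [LL] at hi

theorem iso_id (A : Str) : IsIso LL A A fun a => a := by
  refine ⟨Function.bijective_id, fun i xs _ => ?_, fun i xs hi => by simp [LL] at hi⟩
  have : (xs.map fun a => a) = xs := List.map_id' xs
  rw [this]

theorem comp_inv' {f : ℕ → ℕ} (hf : Computable f) (hb : Function.Bijective f) :
    ∃ g : ℕ → ℕ, Computable g ∧ (∀ a, g (f a) = a) ∧ ∀ b, f (g b) = b := by
  obtain ⟨g, hg1, hg2⟩ := Function.bijective_iff_has_inverse.1 hb
  refine ⟨g, ?_, hg1, hg2⟩
  refine Pool.Agent.Helper446.RE.computable_of_graph ?_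
  refine (Pool.Agent.Helper446.RE.eq (f := fun x : ℕ × ℕ => f x.2) (g := fun x => x.1) (hf.comp Computable.snd)
    Computable.fst).of_eq fun x => ?_
  constructor
  · intro h; rw [← h]; exact hg1 _
  · intro h; rw [← h]; exact hg2 _

open Pool.Agent.Helper446.RE in
theorem MC_comp (c : List ℕ → List Bool) (hc : Computable c) : IsComputableStr LL (MC c) := by
  classical
  refine ⟨⟨fun p => decide (Rl c p.1 p.2), ?_, fun i xs _ => decide_eq_true_iff⟩,
    ⟨fun _ => 0, Computable.const 0, fun _ _ _ => rfl⟩⟩
  have hn : Computable fun p : ℕ × List ℕ => (p.1 - 1).unpair.1 := by fun_prop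
  have hk : Computable fun p : ℕ × List ℕ => (p.1 - 1).unpair.2 := by fun_prop
  have hS : Computable fun p : ℕ × List ℕ => p.2.take (p.1 - 1).unpair.1 := by fun_prop
  have hT0 : Computable fun p : ℕ × List ℕ => p.2.drop (p.1 - 1).unpair.1 :=
    Primrec.list_drop.to_comp.comp hn Computable.snd
  have hT : Computable fun p : ℕ × List ℕ =>
      (p.2.drop (p.1 - 1).unpair.1).take ((p.1 - 1).unpair.2 + 1) :=
    k_take (by fun_prop) hT0
  have h1 : Computable fun p : ℕ × List ℕ => (c (p.2.take (p.1 - 1).unpair.1)).getD
      (p.1 - 1).unpair.2 false := (Primrec.list_getD false).to_comp.comp (hc.comp hS) hk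
  have h2 : Computable fun p : ℕ × List ℕ =>
      (c ((p.2.drop (p.1 - 1).unpair.1).take ((p.1 - 1).unpair.2 + 1))).getD
      (p.1 - 1).unpair.2 false := (Primrec.list_getD false).to_comp.comp (hc.comp hT) hk
  refine (Pool.Agent.Helper446.RE.cand (cdecide (cp_lt hk hn))
    (Pool.Agent.Helper446.RE.cand (k_nodup hS) (Pool.Agent.Helper446.RE.cand (k_nodup hT)
    (cdecide (cp_eq h1 h2))))).of_eq fun p => ?_
  rw [Bool.eq_iff_iff]
  simp [Rl]

section
variable (T : TorsorData)

/-- the first colouring -/
def cA : List ℕ → List Bool := col T.Est Z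

/-- the second colouring -/
def cB : List ℕ → List Bool := col T.Est T.F

theorem gA : IsG (Lim T.Est) Z (cA T) := isG_col T Z Z_len

theorem gB : IsG (Lim T.Est) T.F (cB T) := isG_col T T.F T.lenF

theorem Z_comp : Computable Z := by
  have h : Computable fun n : ℕ => (List.range n).map fun _ => false :=
    J_col_comp.cc_map (g := fun _ _ => false) (crange' Computable.id) (Computable.const false)
  refine h.of_eq fun n => ?_
  unfold Z
  apply List.ext_getElem <;> simp

theorem cA_comp : Computable (cA T) := col_comp _ T.compE _ Z_comp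

theorem cB_comp : Computable (cB T) := col_comp _ T.compE _ T.compF

/-- the two copies are isomorphic -/
theorem isoAB : ∃ g, IsIso LL (MC (cA T)) (MC (cB T)) g := by
  have hU := isU_of T
  obtain ⟨z, hz⟩ := exists_z (Lim T.Est) hU T.F T.lenF T.cohF
  -- the colouring `cB + z` is generic for the base `0`
  have hz' : ∀ ℓ, Lim T.Est (sx (sx (pre z ℓ) (T.F ℓ)) (Z ℓ)) := by
    intro ℓ
    rw [sx_Z' (by rw [sx_len (by rw [pre_len, T.lenF]), pre_len])]
    exact hz ℓ
  have hG : IsG (Lim T.Est) Z fun S => sx (cB T S) (pre z S.length) := by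
    refine isG_shift hU (gB T) T.lenF Z_len id id (fun _ => rfl) (fun _ => rfl) z hz' _ ?_ ?_
    · intro xs
      rw [sx_len (by rw [(gB T).len, pre_len]), (gB T).len]
    · intro S _
      rw [List.map_id]
  obtain ⟨g, _, hg2, hg3⟩ := comp_iso hU (gA T) hG Z_len Z_len (fun ℓ => by
    rw [sx_self, Z_len]; exact hU.zero ℓ)
  refine ⟨g, iso_of (cA T) (cB T) (gA T).len (gB T).len z (MC (cB T)) (fun _ _ _ => Iff.rfl) g hg2 ?_⟩
  intro xs hxs
  rw [← hg3 xs hxs, List.length_map, sx_cancel (by rw [(gB T).len, pre_len, List.length_map])]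

/-- the two copies are not computably isomorphic -/
theorem not_isoAB : ¬ ∃ g, Computable g ∧ IsIso LL (MC (cA T)) (MC (cB T)) g := by
  rintro ⟨g, hg, hg2⟩
  obtain ⟨g', hg', h1, h2⟩ := comp_inv' hg hg2.1
  have e1 := fun S hS => mcol_eq (cA T) (gA T).len (MC (cB T)) g g' hg2 h1 h2 S hS
  have e2 := fun S hS => mcol_eq (cB T) (gB T).len (MC (cB T)) (fun a => a) (fun a => a)
    (iso_id _) (fun _ => rfl) (fun _ => rfl) S hS
  apply T.noniso
  refine ⟨fun k => xor ((cA T ((List.range (k + 1)).map g')).getD k false)
    ((cB T ((List.range (k + 1)).map fun a => a)).getD k false), ?_, ?_⟩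
  · have hx : Primrec₂ xor := Primrec.dom_bool₂ _
    exact hx.to_comp.comp (tau_comp (cA_comp T) hg') (tau_comp (cB_comp T) Computable.id)
  · intro ℓ
    have hU := isU_of T
    have f1 := e1 (List.range ℓ) List.nodup_range
    have f2 := e2 (List.range ℓ) List.nodup_range
    rw [List.map_id', List.length_range] at f2
    rw [List.length_range] at f1
    rw [pre_xor]
    set a1 := pre (fun k => (cA T ((List.range (k + 1)).map g')).getD k false) ℓ
    set a2 := pre (fun k => (cB T ((List.range (k + 1)).map fun a => a)).getD k false) ℓ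
    have hinj : Function.Injective g' := fun a b hab => by rw [← h2 a, ← h2 b, hab]
    have u1 := (gA T).mem ((List.range ℓ).map g') (List.nodup_range.map hinj)
    have u2 := (gB T).mem (List.range ℓ) List.nodup_range
    rw [List.length_map, List.length_range] at u1
    rw [List.length_range] at u2
    have l1 : (cA T ((List.range ℓ).map g')).length = ℓ := by
      rw [(gA T).len, List.length_map, List.length_range]
    have l2 : (cB T (List.range ℓ)).length = ℓ := by
      rw [(gB T).len, List.length_range]
    rw [sx_Z' l1] at u1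
    have l3 : a1.length = ℓ := pre_len _ _
    have l4 : a2.length = ℓ := pre_len _ _
    have hl : ∀ x y : List Bool, x.length = ℓ → y.length = ℓ →
        (sx x y).length = ℓ := fun x y hx hy => by rw [sx_len (by rw [hx, hy]), hx]
    have u3 := hU.add _ _ (by rw [l1, hl _ _ l2 (T.lenF ℓ)]) u1 u2
    convert u3 using 1
    rw [f1] at f2
    -- `a1 + a2 = cA + cB`
    have f3 : sx a1 a2 = sx (cA T ((List.range ℓ).map g')) (cB T (List.range ℓ)) := by
      have e : ∀ x y : List Bool, x.length = ℓ → y.length = ℓ → ∀ k,
          (sx x y).getD k false = xor (x.getD k false) (y.getD k false) :=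
        fun x y hx hy k => getD_sx x y (by rw [hx, hy]) k
      apply list_ext_getD
      · rw [hl _ _ l3 l4, hl _ _ l1 l2]
      · intro k _
        have h := congrArg (fun l => l.getD k false) f2
        rw [e _ _ l1 l3, e _ _ l2 l4] at h
        rw [e _ _ l3 l4, e _ _ l1 l2]
        revert h
        cases a1.getD k false <;> cases a2.getD k false <;>
          cases (cA T ((List.range ℓ).map g')).getD k false <;>
          cases (cB T (List.range ℓ)).getD k false <;> simp
    rw [f3, sx_assoc]

/-- every computable copy is computably isomorphic to one of the two copies -/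
theorem dichAB (C : Str) (hC : IsComputableStr LL C) (hAC : ∃ g, IsIso LL (MC (cA T)) C g) :
    (∃ f, Computable f ∧ IsIso LL (MC (cA T)) C f) ∨
    ∃ f, Computable f ∧ IsIso LL (MC (cB T)) C f := by
  have hU := isU_of T
  obtain ⟨g, hg⟩ := hAC
  obtain ⟨g', h1, h2⟩ := Function.bijective_iff_has_inverse.1 hg.1
  have hm : ∀ S : List ℕ, S.Nodup → mcol C S = sx (cA T (S.map g'))
      (pre (fun k => (cA T ((List.range (k + 1)).map g')).getD k false) S.length) :=
    fun S hS => mcol_eq (cA T) (gA T).len C g g' hg h1 h2 S hS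
  have hinj : Function.Injective g' := fun a b hab => by rw [← h2 a, ← h2 b, hab]
  have mlen : ∀ S, (mcol C S).length = S.length := by
    intro S
    unfold mcol
    rw [List.length_map, List.length_range]
  have hmc := mcol_comp hC
  obtain ⟨a, ha, h⟩ := T.dich (fun ℓ => mcol C (List.range ℓ))
    (hmc.comp (crange' Computable.id)) (fun ℓ => by rw [mlen, List.length_range]) (by
      intro k ℓ hk
      have u1 := (gA T).mem ((List.range ℓ).map g') (List.nodup_range.map hinj)
      have u2 := (gA T).mem ((List.range k).map g') (List.nodup_range.map hinj)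
      have l1 : (cA T ((List.range ℓ).map g')).length = ℓ := by
        rw [(gA T).len, List.length_map, List.length_range]
      have l2 : (cA T ((List.range k).map g')).length = k := by
        rw [(gA T).len, List.length_map, List.length_range]
      rw [List.length_map, List.length_range] at u1 u2
      rw [sx_Z' l1] at u1
      rw [sx_Z' l2] at u2
      rw [hm _ List.nodup_range, hm _ List.nodup_range, List.length_range, List.length_range,
        sx_take, pre_take _ _ _ hk]
      have u3 := hU.add _ _ (by rw [l2, List.length_take, l1]; omega) u2 (hU.restr _ k u1)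
      convert u3 using 1
      have hl : ∀ x y : List Bool, x.length = k → y.length = k →
          (sx x y).length = k := fun x y hx hy => by rw [sx_len (by rw [hx, hy]), hx]
      have e : ∀ x y : List Bool, x.length = k → y.length = k → ∀ j,
          (sx x y).getD j false = xor (x.getD j false) (y.getD j false) :=
        fun x y hx hy j => getD_sx x y (by rw [hx, hy]) j
      have l3 : ((cA T ((List.range ℓ).map g')).take k).length = k := by
        rw [List.length_take, l1]; omega
      have l4 := pre_len (fun k => (cA T ((List.range (k + 1)).map g')).getD k false) k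
      apply list_ext_getD
      · rw [hl _ _ (hl _ _ l3 l4) (hl _ _ l2 l4), hl _ _ l2 l3]
      · intro j _
        rw [e _ _ (hl _ _ l3 l4) (hl _ _ l2 l4), e _ _ l3 l4, e _ _ l2 l4, e _ _ l2 l3]
        cases ((cA T ((List.range ℓ).map g')).take k).getD j false <;>
          cases (pre (fun k => (cA T ((List.range (k + 1)).map g')).getD k false) k).getD j false <;>
          cases (cA T ((List.range k).map g')).getD j false <;> rfl)
  rcases h with h | h
  · left
    refine copy_of_shift hU (gA T) (gA T) Z_len Z_len hg h1 h2 hmc (cA_comp T) a ha ?_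
    intro ℓ
    rw [sx_Z' (by rw [sx_len (by rw [pre_len, mlen, List.length_range]), pre_len])]
    exact h ℓ
  · right
    refine copy_of_shift hU (gA T) (gB T) Z_len T.lenF hg h1 h2 hmc (cB_comp T) a ha ?_
    intro ℓ
    rw [sx_assoc]
    exact h ℓ

theorem fin_types_A (k : ℕ) : {q | ∃ x, q = tp LL (MC (cA T)) k x}.Finite :=
  fin_types (isU_of T) Z_len (gA T)
    (fun φ V x y h1 h2 => sat_PJ' (isU_of T) Z_len (gA T) φ V x y h1 h2) k

theorem cat_A : ∀ B C, IsModel LL (Th LL (MC (cA T))) B → IsModel LL (Th LL (MC (cA T))) C →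
    ∃ f, IsIso LL B C f := by
  intro B C hB hC
  obtain ⟨f, hf⟩ := ryll _ (fin_types_A T) B hB
  obtain ⟨g, hg⟩ := ryll _ (fin_types_A T) C hC
  obtain ⟨f', hf1, hf2⟩ := Function.bijective_iff_has_inverse.1 hf.1
  exact ⟨_, iso_trans' (iso_symm' hf hf1 hf2) hg⟩

end

end Pool.Agent.Helper750.OC
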