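import Pool.Agent.Helper750.OC.Constr

set_option autoImplicit false

namespace Pool.Agent.Helper750.OC.J_constr_of_copy

open Pool.Agent.Helper750.OC

open Pool.Agent.Helper750.DC Pool.Agent.Helper750.CT Encodable

/-- the number of the symbol of an atomic formula -/
def cocI (p : ℕ × List ℕ) : ℕ := p.1.unpair.2.unpair.1

/-- the second part of the code of an atomic formula -/
def cocJ (p : ℕ × List ℕ) : ℕ := p.1.unpair.2.unpair.2

/-- the variables of an atomic formula -/
def cocV (p : ℕ × List ℕ) : List ℕ := Denumerable.ofNat (List ℕ) (cocJ p)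

/-- the decision procedure for the atomic diagram -/
def cocD (dB : ℕ × List ℕ → Bool) (p : ℕ × List ℕ) : Bool :=
  (decide (p.1.unpair.1 = 0) && (decide (cocI p = (cocV p).length) &&
    dB (cocI p, (cocV p).map fun j => p.2.getD j 0))) ||
  (decide (p.1.unpair.1 = 2) && decide (p.2.getD (cocI p) 0 = p.2.getD (cocJ p) 0))

theorem cocI_prim : Primrec cocI :=
  Primrec.fst.comp (Primrec.unpair.comp (Primrec.snd.comp (Primrec.unpair.comp Primrec.fst)))

theorem cocJ_prim : Primrec cocJ :=
  Primrec.snd.comp (Primrec.unpair.comp (Primrec.snd.comp (Primrec.unpair.comp Primrec.fst)))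

theorem cocV_prim : Primrec cocV := (Primrec.ofNat (List ℕ)).comp cocJ_prim

theorem coc_getD {α : Type} [Primcodable α] {l : α → List ℕ} {g : α → ℕ} (hl : Primrec l)
    (hg : Primrec g) : Primrec fun x => (l x).getD (g x) 0 := (Primrec.list_getD 0).comp hl hg

theorem coc_eq {α : Type} [Primcodable α] {f g : α → ℕ} (hf : Primrec f) (hg : Primrec g) :
    Primrec fun x => decide (f x = g x) := (Primrec.eq.comp hf hg).decide

theorem cocD_comp {dB : ℕ × List ℕ → Bool} (hd : Computable dB) : Computable (cocD dB) := by
  have h1 : Primrec fun p : ℕ × List ℕ => (cocV p).map fun j => p.2.getD j 0 :=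
    Primrec.list_map cocV_prim
      (coc_getD (α := (ℕ × List ℕ) × ℕ) (l := fun x => x.1.2) (g := fun x => x.2)
        (Primrec.snd.comp Primrec.fst) Primrec.snd)
  have h2 : Computable fun p : ℕ × List ℕ => dB (cocI p, (cocV p).map fun j => p.2.getD j 0) :=
    hd.comp (cocI_prim.to_comp.pair h1.to_comp)
  have h3 : Primrec fun p : ℕ × List ℕ => decide (p.1.unpair.1 = 0) :=
    coc_eq (Primrec.fst.comp (Primrec.unpair.comp Primrec.fst)) (Primrec.const 0)
  have h4 : Primrec fun p : ℕ × List ℕ => decide (cocI p = (cocV p).length) :=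
    coc_eq cocI_prim (Primrec.list_length.comp cocV_prim)
  have h5 : Primrec fun p : ℕ × List ℕ => decide (p.1.unpair.1 = 2) :=
    coc_eq (Primrec.fst.comp (Primrec.unpair.comp Primrec.fst)) (Primrec.const 2)
  have h6 : Primrec fun p : ℕ × List ℕ => decide (p.2.getD (cocI p) 0 = p.2.getD (cocJ p) 0) :=
    coc_eq (coc_getD Primrec.snd cocI_prim) (coc_getD Primrec.snd cocJ_prim)
  have h7 := Primrec.and.to_comp.comp h3.to_comp (Primrec.and.to_comp.comp h4.to_comp h2)
  have h8 := Primrec.and.to_comp.comp h5.to_comp h6.to_comp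
  exact Primrec.or.to_comp.comp h7 h8

theorem constr_of_copy {A B : Str} {f : ℕ → ℕ} (hB : IsComputableStr LL B)
    (hf : IsIso LL B A f) : IsConstr LL A f := by
  obtain ⟨⟨dB, hd, hdB⟩, -⟩ := hB
  obtain ⟨hbij, hrel, -⟩ := hf
  refine ⟨hbij.2, ?_⟩
  rw [ComputablePred.computable_iff]
  refine ⟨cocD dB, cocD_comp hd, ?_⟩
  funext p
  apply propext
  constructor
  · rintro ⟨φ, hat, hcode, hsat⟩
    cases φ with
    | rel i vs =>
      have e1 : p.1.unpair.1 = 0 := by rw [← hcode]; simp [Fml.code]
      have e2 : cocI p = i := by unfold cocI; rw [← hcode]; simp [Fml.code]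
      have e3 : cocJ p = encode vs := by unfold cocJ; rw [← hcode]; simp [Fml.code]
      have e4 : cocV p = vs := by unfold cocV; rw [e3, Denumerable.ofNat_encode]
      obtain ⟨h1, h2⟩ := hsat
      have h3 : i = vs.length := Option.some_injective _ h1
      have h4 : (vs.map fun i => f (p.2.getD i 0)) = (vs.map fun i => p.2.getD i 0).map f := by
        rw [List.map_map]
        rfl
      have hlen : LL.rel i = some (vs.map fun i => p.2.getD i 0).length := by
        rw [List.length_map]; exact h1
      rw [h4, ← hrel i _ hlen, ← hdB i _ hlen] at h2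
      show cocD dB p = true
      unfold cocD
      rw [e1, e2, e4, h2]
      simp [h3]
    | fn i vs w => exact absurd hsat.1 (by simp [LL])
    | eq v w =>
      have e1 : p.1.unpair.1 = 2 := by rw [← hcode]; simp [Fml.code]
      have e2 : cocI p = v := by unfold cocI; rw [← hcode]; simp [Fml.code]
      have e3 : cocJ p = w := by unfold cocJ; rw [← hcode]; simp [Fml.code]
      have h1 : p.2.getD v 0 = p.2.getD w 0 := hbij.1 hsat
      show cocD dB p = true
      unfold cocD
      rw [e1, e2, e3, h1]
      simp
    | not φ => exact hat.elim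
    | and φ ψ => exact hat.elim
    | ex v φ => exact hat.elim
  · intro h
    change cocD dB p = true at h
    unfold cocD at h
    simp only [Bool.or_eq_true, Bool.and_eq_true, decide_eq_true_eq] at h
    rcases h with ⟨h1, h2, h3⟩ | ⟨h1, h2⟩
    · refine ⟨.rel (cocI p) (cocV p), trivial, ?_, ?_, ?_⟩
      · show Nat.pair 0 (Nat.pair (cocI p) (encode (cocV p))) = p.1
        unfold cocV cocI cocJ
        rw [Denumerable.encode_ofNat, Nat.pair_unpair, ← h1, Nat.pair_unpair]
      · show some (cocI p) = some (cocV p).length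
        rw [← h2]
      · have hlen : LL.rel (cocI p) = some ((cocV p).map fun i => p.2.getD i 0).length := by
          rw [List.length_map]
          show some (cocI p) = some (cocV p).length
          rw [← h2]
        rw [hdB _ _ hlen, hrel _ _ hlen, List.map_map] at h3
        exact h3
    · refine ⟨.eq (cocI p) (cocJ p), trivial, ?_, ?_⟩
      · show Nat.pair 2 (Nat.pair (cocI p) (cocJ p)) = p.1
        unfold cocI cocJ
        rw [Nat.pair_unpair, ← h1, Nat.pair_unpair]
      · show f (p.2.getD (cocI p) 0) = f (p.2.getD (cocJ p) 0)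
        rw [h2]

end Pool.Agent.Helper750.OC.J_constr_of_copy
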