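import Pool.Agent.Helper750.OC.Base
import Pool.Agent.Helper750.CT.Defs

set_option autoImplicit false

namespace Pool.Agent.Helper750.OC.J_isG_col

open Pool.Agent.Helper750.OC

open Pool.Agent.Helper750.DC Pool.Agent.Helper750.CT Pool.Agent.Helper158.FCD Encodable

theorem ic_le_mx {l : List ℕ} {a : ℕ} (h : a ∈ l) : a ≤ mx l := by
  unfold mx
  induction l with
  | nil => simp at h
  | cons b l ih =>
    rw [List.foldr_cons]
    rcases List.mem_cons.mp h with h | h
    · subst h; exact le_max_left _ _
    · exact (ih h).trans (le_max_right _ _)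

theorem ic_mx_le {l : List ℕ} {a : ℕ} (h : ∀ x ∈ l, x ≤ a) : mx l ≤ a := by
  unfold mx
  induction l with
  | nil => simp
  | cons b l ih =>
    rw [List.foldr_cons]
    exact max_le (h b List.mem_cons_self) (ih fun x hx => h x (List.mem_cons_of_mem _ hx))

theorem ic_mx_eq {l : List ℕ} {a : ℕ} (h : a ∈ l) (h2 : ∀ x ∈ l, x ≤ a) : mx l = a :=
  le_antisymm (ic_mx_le h2) (ic_le_mx h)

theorem ic_sx_self (x : List Bool) : sx x x = List.replicate x.length false := by
  unfold sx
  induction x with
  | nil => rfl
  | cons b x ih =>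
    rw [List.zipWith_cons_cons, ih, Bool.xor_self]
    rfl

theorem ic_look (L : List (List ℕ)) (key val : List ℕ → List ℕ) (I : List ℕ) (hI : I ∈ L)
    (hinj : ∀ J ∈ L, key J = key I → J = I) :
    look (L.map fun J => (key J, val J)) (key I) = val I := by
  unfold look
  induction L with
  | nil => simp at hI
  | cons J L ih =>
    rw [List.map_cons, List.foldr_cons]
    by_cases h : key J = key I
    · have hJ : J = I := hinj J List.mem_cons_self h
      simp only [h, if_true, hJ]
    · simp only [h, if_false]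
      refine ih ?_ fun K hK => hinj K (List.mem_cons_of_mem _ hK)
      rcases List.mem_cons.mp hI with h' | h'
      · subst h'; exact absurd rfl h
      · exact h'

theorem ic_map_inj (κ : ℕ → ℕ) (n : ℕ)
    (hκ : ∀ i ≤ n, ∀ j ≤ n, κ i = κ j → i = j) :
    ∀ I J : List ℕ, (∀ i ∈ I, i ≤ n) → (∀ i ∈ J, i ≤ n) → I.map κ = J.map κ → I = J := by
  intro I
  induction I with
  | nil =>
    intro J _ _ h
    rw [List.map_nil] at h
    exact (List.map_eq_nil_iff.mp h.symm).symm
  | cons i I ih =>
    intro J hI hJ h
    cases J with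
    | nil => simp at h
    | cons j J =>
      rw [List.map_cons, List.map_cons, List.cons.injEq] at h
      have h1 := hκ i (hI i List.mem_cons_self) j (hJ j List.mem_cons_self) h.1
      have h2 := ih J (fun k hk => hI k (List.mem_cons_of_mem _ hk))
        (fun k hk => hJ k (List.mem_cons_of_mem _ hk)) h.2
      rw [h1, h2]

theorem ic_finite (n : ℕ) : {I : List ℕ | I.Nodup ∧ ∀ i ∈ I, i ≤ n}.Finite := by
  have h : (Set.range (fun l : {l : List (Fin (n + 1)) // l.Nodup} =>
      l.1.map (fun i : Fin (n + 1) => (i : ℕ)))).Finite := Set.finite_range _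
  refine h.subset ?_
  rintro I ⟨h1, h2⟩
  have h3 : ∀ i ∈ I, i < n + 1 := fun i hi => Nat.lt_succ_of_le (h2 i hi)
  refine ⟨⟨I.pmap (fun i hi => (⟨i, hi⟩ : Fin (n + 1))) h3, ?_⟩, ?_⟩
  · refine List.Nodup.pmap ?_ h1
    intro a ha b hb hab
    exact Fin.mk.inj_iff.mp hab
  · simp only [List.map_pmap]
    simp

theorem ic_mono (T : TorsorData) {t t' : ℕ} (h : t ≤ t') {x : List Bool}
    (hx : T.Est t x = true) : T.Est t' x = true := by
  induction h with
  | refl => exact hx
  | step _ ih => exact T.mono _ _ ih

theorem ic_le_sum {L : List (List ℕ)} (t : List ℕ → ℕ) {I : List ℕ} (h : I ∈ L) :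
    t I ≤ (L.map t).sum := List.single_le_sum (fun _ _ => Nat.zero_le _) _ (List.mem_map_of_mem h)

theorem ic_ext (T : TorsorData) (B : ℕ → List Bool) (as : List ℕ)
    (π : List ℕ → List Bool) (has : as.Nodup)
    (hπ : ∀ I, (π I).length = I.length ∧ Lim T.Est (sx (π I) (B I.length))) :
    ∃ a, a ∉ as ∧ ∀ I : List ℕ, I.Nodup → (∀ i ∈ I, i ≤ as.length) → as.length ∈ I →
      col T.Est B (I.map fun i => (as ++ [a]).getD i 0) = π I := by
  classical
  set n := as.length with hn
  set L : List (List ℕ) := (ic_finite n).toFinset.toList with hL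
  have hmemL : ∀ I : List ℕ, I ∈ L ↔ I.Nodup ∧ ∀ i ∈ I, i ≤ n := by
    intro I
    rw [hL, Finset.mem_toList, Set.Finite.mem_toFinset]
    rfl
  have ht : ∀ I, ∃ t, T.Est t (sx (π I) (B I.length)) = true := fun I => (hπ I).2
  choose t ht using ht
  set κ : ℕ → ℕ := fun i => if i = n then 0 else as.getD i 0 + 1 with hκ
  set val : List ℕ → List ℕ := fun I => (π I).map (fun b => if b then 1 else 0) with hval
  set Tb : List (List ℕ × List ℕ) := L.map fun I => (I.map κ, val I) with hTb
  set b : ℕ := mx as + 1 + (L.map t).sum with hb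
  set a : ℕ := Nat.pair (encode Tb) b with ha
  have hba : b ≤ a := Nat.right_le_pair _ _
  have hasa : ∀ x ∈ as, x < a := by
    intro x hx
    have := ic_le_mx hx
    omega
  refine ⟨a, fun h => lt_irrefl a (hasa a h), ?_⟩
  intro I hI1 hI2 hI3
  have hIL : I ∈ L := (hmemL I).mpr ⟨hI1, hI2⟩
  have hta : t I ≤ a := by
    have := ic_le_sum t hIL
    omega
  have hget_n : (as ++ [a]).getD n 0 = a := by
    simp [hn, List.getD_eq_getElem?_getD]
  have hget_lt : ∀ i < n, (as ++ [a]).getD i 0 = as.getD i 0 := by
    intro i hi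
    simp only [List.getD_eq_getElem?_getD]
    rw [List.getElem?_append_left hi]
  have hgetmem : ∀ i < n, as.getD i 0 ∈ as := by
    intro i hi
    rw [List.getD_eq_getElem as 0 hi]
    exact List.getElem_mem hi
  set xs : List ℕ := I.map fun i => (as ++ [a]).getD i 0 with hxs
  have hxslen : xs.length = I.length := by rw [hxs, List.length_map]
  have hmx : mx xs = a := by
    refine ic_mx_eq ?_ ?_
    · rw [hxs, List.mem_map]
      exact ⟨n, hI3, hget_n⟩
    · intro x hx
      rw [hxs, List.mem_map] at hx
      obtain ⟨i, hi, rfl⟩ := hx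
      rcases Nat.lt_or_eq_of_le (hI2 i hi) with h | h
      · rw [hget_lt i h]
        exact (hasa _ (hgetmem i h)).le
      · rw [h, hget_n]
  have hκinj : ∀ i ≤ n, ∀ j ≤ n, κ i = κ j → i = j := by
    intro i hi j hj hij
    rw [hκ] at hij
    simp only at hij
    split_ifs at hij with h1 h2 h3
    · rw [h1, h2]
    · have hi' : i < n := lt_of_le_of_ne hi h1
      have hj' : j < n := lt_of_le_of_ne hj h3
      have h4 : as.getD i 0 = as.getD j 0 := by omega
      rw [List.getD_eq_getElem as 0 hi', List.getD_eq_getElem as 0 hj'] at h4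
      exact (List.Nodup.getElem_inj_iff has).mp h4
  have hkey : (xs.map fun z => if z = mx xs then 0 else z + 1) = I.map κ := by
    rw [hmx, hxs, List.map_map]
    refine List.map_congr_left ?_
    intro i hi
    simp only [Function.comp, hκ]
    rcases Nat.lt_or_eq_of_le (hI2 i hi) with h | h
    · rw [hget_lt i h, if_neg (hasa _ (hgetmem i h)).ne, if_neg h.ne]
    · rw [h, hget_n, if_pos rfl, if_pos rfl]
  have hcand : cand xs = π I := by
    unfold cand
    rw [hkey, hmx, ha, Nat.unpair_pair]
    rw [Denumerable.ofNat_encode, hTb]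
    have h5 := ic_look L (fun J => J.map κ) val I hIL (by
      intro J hJ hJI
      exact ic_map_inj κ n hκinj J I ((hmemL J).mp hJ).2 hI2 hJI)
    rw [h5, hval]
    simp only [List.map_map]
    have h6 : ((fun b : ℕ => decide (b = 1)) ∘ fun b : Bool => if b = true then 1 else 0) = id := by
      funext b
      cases b <;> simp
    rw [h6, List.map_id]
  unfold col
  rw [hcand, hmx, hxslen, (hπ I).1]
  have h7 : T.Est a (sx (π I) (B I.length)) = true := ic_mono T hta (ht I)
  rw [h7]
  simp

theorem isG_col (T : TorsorData) (B : ℕ → List Bool) (hB : ∀ ℓ, (B ℓ).length = ℓ) :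
    IsG (Lim T.Est) B (col T.Est B) := by
  refine ⟨?_, ?_, ?_⟩
  · intro xs
    unfold col
    cases h : (decide ((cand xs).length = xs.length) &&
        T.Est (mx xs) (sx (cand xs) (B xs.length)))
    · simp only [cond_false]
      exact hB _
    · simp only [cond_true]
      rw [Bool.and_eq_true, decide_eq_true_eq] at h
      exact h.1
  · intro xs _
    unfold col
    cases h : (decide ((cand xs).length = xs.length) &&
        T.Est (mx xs) (sx (cand xs) (B xs.length)))
    · simp only [cond_false]
      rw [ic_sx_self]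
      exact T.zero _
    · simp only [cond_true]
      rw [Bool.and_eq_true, decide_eq_true_eq] at h
      exact ⟨_, h.2⟩
  · intro as π has hπ
    exact ic_ext T B as π has hπ

end Pool.Agent.Helper750.OC.J_isG_col
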