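import Pool.Agent.Helper750.OC.Base

set_option autoImplicit false

namespace Pool.Agent.Helper750.OC

open Pool.Agent.Helper750.DC Pool.Agent.Helper750.CT Pool.Agent.Helper158.FCD Encodable

theorem sx_len {x y : List Bool} (h : x.length = y.length) : (sx x y).length = x.length := by
  simp [sx, h]

theorem pre_len (a : ℕ → Bool) (n : ℕ) : (pre a n).length = n := by simp [pre]

theorem Z_len (n : ℕ) : (Z n).length = n := by simp [Z]

theorem sx_comm (x y : List Bool) : sx x y = sx y x := by
  unfold sx
  rw [List.zipWith_comm]
  congr 1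
  funext a b
  exact Bool.xor_comm _ _

theorem sx_assoc : ∀ x y z : List Bool, sx (sx x y) z = sx x (sx y z)
  | [], y, z => by simp [sx]
  | a :: x, [], z => by simp [sx]
  | a :: x, b :: y, [] => by simp [sx]
  | a :: x, b :: y, c :: z => by
    have h := sx_assoc x y z
    simp only [sx, List.zipWith_cons_cons] at h ⊢
    rw [h, Bool.xor_assoc]

theorem sx_self : ∀ x : List Bool, sx x x = Z x.length
  | [] => by simp [sx, Z]
  | a :: x => by
    have h := sx_self x
    simp only [sx, Z, List.zipWith_cons_cons, List.length_cons, List.replicate_succ,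
      Bool.xor_self] at h ⊢
    rw [h]

theorem sx_Z : ∀ x : List Bool, sx x (Z x.length) = x
  | [] => by simp [sx, Z]
  | a :: x => by
    have h := sx_Z x
    simp only [sx, Z, List.zipWith_cons_cons, List.length_cons, List.replicate_succ,
      Bool.xor_false] at h ⊢
    rw [h]

theorem sx_Z' {x : List Bool} {n : ℕ} (h : x.length = n) : sx x (Z n) = x := by
  subst h; exact sx_Z x

theorem Z_sx' {x : List Bool} {n : ℕ} (h : x.length = n) : sx (Z n) x = x := by
  rw [sx_comm]; exact sx_Z' h

theorem sx_cancel {x y : List Bool} (h : x.length = y.length) : sx (sx x y) y = x := by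
  rw [sx_assoc, sx_self, ← h, sx_Z]

theorem getD_sx (x y : List Bool) (h : x.length = y.length) (k : ℕ) :
    (sx x y).getD k false = xor (x.getD k false) (y.getD k false) := by
  by_cases hk : k < x.length
  · rw [List.getD_eq_getElem _ _ (by rw [sx_len h]; exact hk), List.getD_eq_getElem _ _ hk,
      List.getD_eq_getElem _ _ (by rw [← h]; exact hk)]
    simp [sx]
  · rw [List.getD_eq_default _ _ (by rw [sx_len h]; omega), List.getD_eq_default _ _ (by omega),
      List.getD_eq_default _ _ (by omega)]
    rfl

theorem getD_pre (a : ℕ → Bool) (n k : ℕ) (hk : k < n) : (pre a n).getD k false = a k := by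
  rw [List.getD_eq_getElem _ _ (by rw [pre_len]; exact hk)]
  simp [pre]

theorem pre_xor (a b : ℕ → Bool) (n : ℕ) : pre (fun k => xor (a k) (b k)) n = sx (pre a n) (pre b n) := by
  apply List.ext_getElem
  · rw [sx_len (by rw [pre_len, pre_len]), pre_len, pre_len]
  · intro k h1 h2
    simp [pre, sx]

theorem pre_take (a : ℕ → Bool) (n k : ℕ) (h : k ≤ n) : (pre a n).take k = pre a k := by
  apply List.ext_getElem
  · rw [List.length_take, pre_len, pre_len]; omega
  · intro i h1 h2
    simp [pre]

theorem sx_take (x y : List Bool) (k : ℕ) : (sx x y).take k = sx (x.take k) (y.take k) := by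
  unfold sx
  rw [List.take_zipWith]

theorem list_ext_getD {x y : List Bool} (h : x.length = y.length)
    (h2 : ∀ k < x.length, x.getD k false = y.getD k false) : x = y := by
  apply List.ext_getElem h
  intro k h3 h4
  have := h2 k h3
  rwa [List.getD_eq_getElem _ _ h3, List.getD_eq_getElem _ _ h4] at this

theorem isU_of (T : TorsorData) : IsU (Lim T.Est) := ⟨T.zero, T.add, T.restr⟩

theorem lim_mono (T : TorsorData) {t s : ℕ} (h : t ≤ s) (x : List Bool) (hx : T.Est t x = true) :
    T.Est s x = true := by
  induction h with
  | refl => exact hx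
  | step _ ih => exact T.mono _ _ ih

end Pool.Agent.Helper750.OC
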