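import Pool.Agent.Helper750.OC.J_col_comp
import Pool.Agent.Helper750.OC.Sx

set_option autoImplicit false

namespace Pool.Agent.Helper750.OC

open Pool.Agent.Helper750.DC Pool.Agent.Helper750.CT Pool.Agent.Helper158.FCD Encodable
open Pool.Agent.Helper446.RE

theorem refs_length (S : List ℕ) (k : ℕ) (h : k < S.length) :
    (refs S k).length = Nat.pair S.length k + 1 := by
  have := Nat.add_le_pair S.length k
  unfold refs
  rw [List.length_append, List.length_append, List.length_range, List.length_replicate]
  omega

theorem crange' {α : Type} [Primcodable α] {f : α → ℕ} (hf : Computable f) :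
    Computable fun x => List.range (f x) := Primrec.list_range.to_comp.comp hf

theorem refs_comp {α : Type} [Primcodable α] {f : α → List ℕ} {g : α → ℕ} (hf : Computable f)
    (hg : Computable g) : Computable fun x => refs (f x) (g x) := by
  unfold refs
  refine cappend hf (cappend (crange' (by fun_prop)) ?_)
  have h : Computable fun x => (List.range (Nat.pair (f x).length (g x) + 1 -
      ((f x).length + (g x + 1)))).map fun _ => 0 := by
    refine J_col_comp.cc_map (g := fun _ _ => 0) (crange' ?_) (cconst 0)
    exact (Primrec.nat_sub.to_comp).comp (by fun_prop) (by fun_prop)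
  refine h.of_eq fun x => ?_
  apply List.ext_getElem <;> simp

theorem mcol_comp {C : Str} (hC : IsComputableStr LL C) : Computable (mcol C) := by
  obtain ⟨⟨d, hd, hd2⟩, _⟩ := hC
  have h : Computable fun S : List ℕ => (List.range S.length).map fun k =>
      !(d (Nat.pair S.length k + 1, refs S k)) := by
    refine J_col_comp.cc_map (g := fun (S : List ℕ) k => !(d (Nat.pair S.length k + 1, refs S k)))
      (crange' (by fun_prop)) ?_
    refine (Primrec.not.to_comp).comp (hd.comp (Computable.pair (by fun_prop) ?_))
    exact refs_comp Computable.fst Computable.snd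
  refine h.of_eq fun S => ?_
  unfold mcol
  apply List.map_congr_left
  intro k hk
  rw [List.mem_range] at hk
  have h1 := hd2 (Nat.pair S.length k + 1) (refs S k) (by rw [refs_length S k hk]; rfl)
  have h2 : d (Nat.pair S.length k + 1, refs S k) =
      @decide (C.R (Nat.pair S.length k + 1) (refs S k)) (Classical.propDecidable _) := by
    rw [Bool.eq_iff_iff, h1]
    exact (@decide_eq_true_eq _ (Classical.propDecidable _)).symm.to_iff
  rw [h2]

theorem pre_comp {α : Type} [Primcodable α] {a : ℕ → Bool} {f : α → ℕ} (ha : Computable a)
    (hf : Computable f) : Computable fun x => pre a (f x) := by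
  unfold pre
  exact J_col_comp.cc_map (g := fun _ k => a k) (crange' hf) (ha.comp Computable.snd)

theorem shift_comp {C : Str} (hC : Computable (mcol C)) {a : ℕ → Bool} (ha : Computable a) :
    Computable fun S => sx (mcol C S) (pre a S.length) :=
  J_col_comp.cc_sx hC (pre_comp ha (by fun_prop))

/-- the coordinates of the colours -/
theorem tau_comp {c : List ℕ → List Bool} (hc : Computable c) {g : ℕ → ℕ} (hg : Computable g) :
    Computable fun k => (c ((List.range (k + 1)).map g)).getD k false := by
  have h1 : Computable fun k : ℕ => (List.range (k + 1)).map g :=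
    J_col_comp.cc_map (g := fun _ k => g k) (crange' (by fun_prop)) (hg.comp Computable.snd)
  exact (Primrec.list_getD false).to_comp.comp (hc.comp h1) Computable.id

end Pool.Agent.Helper750.OC
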