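import Pool.Agent.Helper750.OC.Sx

set_option autoImplicit false

namespace Pool.Agent.Helper750.OC

open Pool.Agent.Helper750.DC Pool.Agent.Helper750.CT Pool.Agent.Helper158.FCD Encodable

theorem PJ_nodup {V : Finset ℕ} {x y : ℕ → ℕ}
    (h : ∀ u ∈ V, ∀ v ∈ V, (x u = x v ↔ y u = y v)) (vs : List ℕ) (hV : ∀ v ∈ vs, v ∈ V)
    (hnd : (vs.map x).Nodup) : (vs.map y).Nodup := by
  have h1 : vs.Nodup := List.Nodup.of_map _ hnd
  refine List.Nodup.map_on ?_ h1
  intro u hu v hv huv
  have h2 := (h u (hV u hu) v (hV v hv)).2 huv
  exact List.inj_on_of_nodup_map hnd hu hv h2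

theorem PJ_symm {c c' : List ℕ → List Bool} {V : Finset ℕ}
    {x y : ℕ → ℕ} (h : PJ c c' V x y) : PJ c' c V y x := by
  refine ⟨fun u hu v hv => (h.1 u hu v hv).symm, ?_⟩
  intro vs hV hnd
  exact (h.2 vs hV (PJ_nodup (fun u hu v hv => (h.1 u hu v hv).symm) vs hV hnd)).symm

theorem PJ_mono {c c' : List ℕ → List Bool} {V V' : Finset ℕ}
    {x y : ℕ → ℕ} (h : PJ c c' V x y) (hV : V' ⊆ V) : PJ c c' V' x y :=
  ⟨fun u hu v hv => h.1 u (hV hu) v (hV hv), fun vs hvs hnd => h.2 vs (fun v hv => hV (hvs v hv)) hnd⟩

theorem PJ_comp {c c' : List ℕ → List Bool} {V V' : Finset ℕ} {x y : ℕ → ℕ}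
    (h : PJ c c' V x y) (σ : ℕ → ℕ) (hσ : ∀ u ∈ V', σ u ∈ V) :
    PJ c c' V' (fun u => x (σ u)) (fun u => y (σ u)) := by
  refine ⟨fun u hu v hv => h.1 _ (hσ u hu) _ (hσ v hv), ?_⟩
  intro vs hvs hnd
  have e1 : vs.map (fun u => x (σ u)) = (vs.map σ).map x := by rw [List.map_map]; rfl
  have e2 : vs.map (fun u => y (σ u)) = (vs.map σ).map y := by rw [List.map_map]; rfl
  rw [e1] at hnd
  rw [e1, e2]
  refine h.2 _ ?_ hnd
  intro v hv
  obtain ⟨u, hu, rfl⟩ := List.mem_map.1 hv
  exact hσ u (hvs u hu)

theorem PJ_congr {c c' : List ℕ → List Bool} {V : Finset ℕ} {x y x' y' : ℕ → ℕ}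
    (h : PJ c c' V x y) (hx : ∀ u ∈ V, x u = x' u) (hy : ∀ u ∈ V, y u = y' u) :
    PJ c c' V x' y' := by
  refine ⟨fun u hu v hv => by rw [← hx u hu, ← hx v hv, ← hy u hu, ← hy v hv]; exact h.1 u hu v hv,
    ?_⟩
  intro vs hvs hnd
  have e1 : vs.map x' = vs.map x := List.map_congr_left fun v hv => (hx v (hvs v hv)).symm
  have e2 : vs.map y' = vs.map y := List.map_congr_left fun v hv => (hy v (hvs v hv)).symm
  rw [e1] at hnd
  rw [e1, e2]
  exact h.2 vs hvs hnd

theorem PJ_ext {U : List Bool → Prop} (hU : IsU U) {B : ℕ → List Bool}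
    (hB : ∀ ℓ, (B ℓ).length = ℓ) {c : List ℕ → List Bool} (hM : IsG U B c) {V : Finset ℕ}
    {x y : ℕ → ℕ} (h : PJ c c V x y) (w : ℕ) (hw : w ∉ V) (a : ℕ) :
    ∃ b, PJ c c (insert w V) (Function.update x w a) (Function.update y w b) := by
  classical
  by_cases hc : ∃ v ∈ V, x v = a
  · obtain ⟨v, hv, hva⟩ := hc
    refine ⟨y v, ?_⟩
    have h1 := PJ_comp h (V' := insert w V) (fun u => if u = w then v else u) (by
      intro u hu
      by_cases huw : u = w
      · simpa [huw] using hv
      · simpa [huw] using (Finset.mem_insert.1 hu).resolve_left huw)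
    refine PJ_congr h1 ?_ ?_
    · intro u _
      by_cases huw : u = w
      · subst huw; simp [hva]
      · simp [huw]
    · intro u _
      by_cases huw : u = w
      · subst huw; simp
      · simp [huw]
  · push Not at hc
    -- the x-value belonging to a y-value
    have hX : ∃ X : ℕ → ℕ, ∀ v ∈ V, X (y v) = x v := by
      refine ⟨fun c => if hcc : ∃ v ∈ V, y v = c then x hcc.choose else 0, fun v hv => ?_⟩
      have hcc : ∃ v' ∈ V, y v' = y v := ⟨v, hv, rfl⟩
      simp only [dif_pos hcc]
      exact (h.1 _ hcc.choose_spec.1 _ hv).2 hcc.choose_spec.2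
    obtain ⟨X, hX⟩ := hX
    let as : List ℕ := (V.image y).toList
    have has : as.Nodup := Finset.nodup_toList _
    have hmem : ∀ v ∈ V, y v ∈ as := fun v hv => by
      simp only [as, Finset.mem_toList, Finset.mem_image]
      exact ⟨v, hv, rfl⟩
    have hmem' : ∀ c ∈ as, ∃ v ∈ V, y v = c := fun c hc => by
      simpa only [as, Finset.mem_toList, Finset.mem_image] using hc
    let ζ : List ℕ → List ℕ := fun I => I.map fun i => if i < as.length then X (as.getD i 0) else a
    obtain ⟨b, hb, hext⟩ := hM.ext as
      (fun I => if (ζ I).Nodup then c (ζ I) else B I.length) has (by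
        intro I
        have hl : (ζ I).length = I.length := by simp [ζ]
        by_cases hn : (ζ I).Nodup
        · simp only [hn, if_true]
          refine ⟨by rw [hM.len, hl], ?_⟩
          have := hM.mem _ hn
          rwa [hl] at this
        · simp only [hn, if_false]
          refine ⟨hB _, ?_⟩
          rw [sx_self, hB]
          exact hU.zero _)
    refine ⟨b, ?_, ?_⟩
    · have hne : ∀ v ∈ V, y v ≠ b := fun v hv hvb => hb (hvb ▸ hmem v hv)
      intro u hu0 v hv0
      rcases Finset.mem_insert.1 hu0 with rfl | hu
      · rcases Finset.mem_insert.1 hv0 with rfl | hv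
        · simp
        · have hvw : v ≠ u := fun e => hw (e ▸ hv)
          simp only [Function.update_self, Function.update_of_ne hvw]
          constructor
          · intro e; exact absurd e.symm (hc v hv)
          · intro e; exact absurd e.symm (hne v hv)
      · have huw : u ≠ w := fun e => hw (e ▸ hu)
        rcases Finset.mem_insert.1 hv0 with rfl | hv
        · simp only [Function.update_self, Function.update_of_ne huw]
          constructor
          · intro e; exact absurd e (hc u hu)
          · intro e; exact absurd e (hne u hu)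
        · have hvw : v ≠ w := fun e => hw (e ▸ hv)
          simp only [Function.update_of_ne hvw, Function.update_of_ne huw]
          exact h.1 u hu v hv
    · intro vs hV hnd
      by_cases hwv : w ∈ vs
      · let idx : ℕ → ℕ := fun u => if u = w then as.length else as.idxOf (y u)
        have e1 : (vs.map idx).map (fun i => (as ++ [b]).getD i 0)
            = vs.map (Function.update y w b) := by
          rw [List.map_map]
          refine List.map_congr_left fun u hu => ?_
          simp only [Function.comp, idx]
          by_cases huw : u = w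
          · subst huw
            simp
          · have huV : u ∈ V := (Finset.mem_insert.1 (hV u hu)).resolve_left huw
            have hlt : as.idxOf (y u) < as.length := List.idxOf_lt_length_of_mem (hmem u huV)
            rw [if_neg huw, Function.update_of_ne huw, List.getD_append _ _ _ _ hlt,
              List.getD_eq_getElem _ _ hlt]
            exact List.getElem_idxOf hlt
        have e2 : ζ (vs.map idx) = vs.map (Function.update x w a) := by
          simp only [ζ]
          rw [List.map_map]
          refine List.map_congr_left fun u hu => ?_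
          simp only [Function.comp, idx]
          by_cases huw : u = w
          · subst huw
            simp
          · have huV : u ∈ V := (Finset.mem_insert.1 (hV u hu)).resolve_left huw
            have hlt : as.idxOf (y u) < as.length := List.idxOf_lt_length_of_mem (hmem u huV)
            rw [if_neg huw, Function.update_of_ne huw, if_pos hlt,
              List.getD_eq_getElem _ _ hlt, List.getElem_idxOf hlt]
            exact hX u huV
        have hnd' : (vs.map idx).Nodup := by
          rw [← e2] at hnd
          exact List.Nodup.of_map _ hnd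
        have h3 := hext (vs.map idx) hnd'
          (by
            intro i hi
            obtain ⟨u, hu, rfl⟩ := List.mem_map.1 hi
            simp only [idx]
            split_ifs with huw
            · exact le_rfl
            · exact List.idxOf_le_length)
          (by
            refine List.mem_map.2 ⟨w, hwv, ?_⟩
            simp [idx])
        rw [e1] at h3
        have h4 : (ζ (vs.map idx)).Nodup := by rw [e2]; exact hnd
        simp only [h4, if_true] at h3
        rw [e2] at h3
        exact h3.symm
      · have hV' : ∀ v ∈ vs, v ∈ V := by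
          intro v hv
          rcases Finset.mem_insert.1 (hV v hv) with rfl | h'
          · exact absurd hv hwv
          · exact h'
        have hne : ∀ v ∈ vs, v ≠ w := fun v hv e => hwv (e ▸ hv)
        have e1 : vs.map (Function.update x w a) = vs.map x :=
          List.map_congr_left fun v hv => Function.update_of_ne (hne v hv) _ _
        have e2 : vs.map (Function.update y w b) = vs.map y :=
          List.map_congr_left fun v hv => Function.update_of_ne (hne v hv) _ _
        rw [e1] at hnd
        rw [e1, e2]
        exact h.2 vs hV' hnd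

theorem sat_PJ' {U : List Bool → Prop} (hU : IsU U) {B : ℕ → List Bool}
    (hB : ∀ ℓ, (B ℓ).length = ℓ) {c : List ℕ → List Bool} (hc : IsG U B c) (φ : Fml) :
    ∀ (V : Finset ℕ) (x y : ℕ → ℕ), (∀ v, Free φ v → v ∈ V) → PJ c c V x y →
      (Sat LL (MC c) φ x ↔ Sat LL (MC c) φ y) := by
  induction φ with
  | rel i vs =>
    intro V x y hV h
    have hvV : ∀ v ∈ vs, v ∈ V := fun v hv => hV v hv
    simp only [Sat]
    refine and_congr_right fun _ => ?_
    show Rl c i (vs.map x) ↔ Rl c i (vs.map y)
    unfold Rl
    rw [← List.map_take, ← List.map_drop, ← List.map_take, ← List.map_take, ← List.map_drop,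
      ← List.map_take]
    have m1 : ∀ v ∈ vs.take (i - 1).unpair.1, v ∈ V := fun v hv => hvV v (List.mem_of_mem_take hv)
    have m2 : ∀ v ∈ (vs.drop (i - 1).unpair.1).take ((i - 1).unpair.2 + 1), v ∈ V :=
      fun v hv => hvV v (List.mem_of_mem_drop (List.mem_of_mem_take hv))
    have n1 : ∀ us : List ℕ, (∀ v ∈ us, v ∈ V) → ((us.map x).Nodup ↔ (us.map y).Nodup) :=
      fun us hus => ⟨PJ_nodup h.1 us hus, PJ_nodup (fun u hu v hv => (h.1 u hu v hv).symm) us hus⟩
    rw [← n1 _ m1, ← n1 _ m2]
    refine and_congr_right fun _ => and_congr_right fun hn1 => and_congr_right fun hn2 => ?_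
    rw [h.2 _ m1 hn1, h.2 _ m2 hn2]
  | fn i vs w => intro V x y hV h; simp [Sat, LL]
  | eq u v =>
    intro V x y hV h
    simp only [Sat]
    exact h.1 u (hV u (Or.inl rfl)) v (hV v (Or.inr rfl))
  | not φ ih =>
    intro V x y hV h
    simp only [Sat]
    exact not_congr (ih V x y hV h)
  | and φ ψ ih1 ih2 =>
    intro V x y hV h
    simp only [Sat]
    exact and_congr (ih1 V x y (fun v hv => hV v (Or.inl hv)) h)
      (ih2 V x y (fun v hv => hV v (Or.inr hv)) h)
  | ex v φ ih =>
    intro V x y hV h
    simp only [Sat]
    have h0 : PJ c c (V.erase v) x y := PJ_mono h (Finset.erase_subset _ _)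
    have hF : ∀ u, Free φ u → u ∈ insert v (V.erase v) := by
      intro u hu
      by_cases huv : u = v
      · rw [huv]; exact Finset.mem_insert_self _ _
      · exact Finset.mem_insert_of_mem (Finset.mem_erase.2 ⟨huv, hV u ⟨hu, huv⟩⟩)
    constructor
    · rintro ⟨a, ha⟩
      obtain ⟨b, hb⟩ := PJ_ext hU hB hc h0 v (Finset.notMem_erase _ _) a
      exact ⟨b, (ih _ _ _ hF hb).1 ha⟩
    · rintro ⟨b, hb⟩
      obtain ⟨a, ha⟩ := PJ_ext hU hB hc (PJ_symm h0) v (Finset.notMem_erase _ _) b
      exact ⟨a, (ih _ _ _ hF (PJ_symm ha)).2 hb⟩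

end Pool.Agent.Helper750.OC
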