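import Pool.Agent.Helper750.OC.All
import Pool.Agent.Helper750.OC.MySat
import Pool.Agent.Helper750.OC.Sx
import Pool.Agent.Helper750.OC.MComp
import Pool.Agent.Helper750.CT.Ryll

set_option autoImplicit false

namespace Pool.Agent.Helper750.OC

open Pool.Agent.Helper750.DC Pool.Agent.Helper750.CT Pool.Agent.Helper158.FCD Encodable

theorem IsP_swap {c c' : List ℕ → List Bool} {f : List (ℕ × ℕ)} (h : IsP c c' f) :
    IsP c' c (f.map Prod.swap) := by
  obtain ⟨h1, h2, h3⟩ := h
  have e1 : (f.map Prod.swap).map Prod.fst = f.map Prod.snd := by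
    rw [List.map_map]; rfl
  have e2 : (f.map Prod.swap).map Prod.snd = f.map Prod.fst := by
    rw [List.map_map]; rfl
  refine ⟨by rw [e1]; exact h2, by rw [e2]; exact h1, ?_⟩
  intro I hI hl
  rw [List.length_map] at hl
  have h4 := h3 I hI hl
  have e3 : ∀ i : ℕ, ((f.map Prod.swap)[i]?).getD (0, 0) = Prod.swap ((f[i]?).getD (0, 0)) := by
    intro i
    rw [List.getElem?_map]
    cases f[i]? <;> rfl
  have e4 : (I.map fun i => (((f.map Prod.swap)[i]?).getD (0, 0)).1) =
      I.map fun i => ((f[i]?).getD (0, 0)).2 := by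
    apply List.map_congr_left; intro i _; rw [e3]; rfl
  have e5 : (I.map fun i => (((f.map Prod.swap)[i]?).getD (0, 0)).2) =
      I.map fun i => ((f[i]?).getD (0, 0)).1 := by
    apply List.map_congr_left; intro i _; rw [e3]; rfl
  rw [e4, e5]
  exact h4.symm

theorem comp_iso {U : List Bool → Prop} (hU : IsU U) {B B' : ℕ → List Bool}
    {c c' : List ℕ → List Bool} (hc : IsG U B c) (hc' : IsG U B' c')
    (hB : ∀ ℓ, (B ℓ).length = ℓ) (hB' : ∀ ℓ, (B' ℓ).length = ℓ)
    (hBB : ∀ ℓ, U (sx (B ℓ) (B' ℓ))) :
    ∃ g : ℕ → ℕ, (Computable c → Computable c' → Computable g) ∧ Function.Bijective g ∧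
      ∀ xs : List ℕ, xs.Nodup → c' (xs.map g) = c xs := by
  classical
  obtain ⟨g, F, hg1, hg2, hF1, hF2, hF3⟩ := cbf (fun f => decide (IsP c c' f))
    (by
      rw [decide_eq_true_eq]
      refine ⟨List.nodup_nil, List.nodup_nil, ?_⟩
      intro I _ hl
      have : I = [] := by
        cases I with
        | nil => rfl
        | cons i I => exact absurd (hl i (List.mem_cons_self ..)) (by simp)
      subst this
      have h1 := hc.len []
      have h2 := hc'.len []
      simp only [List.map_nil]
      rw [List.length_nil] at h1 h2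
      rw [List.length_eq_zero_iff.1 h1, List.length_eq_zero_iff.1 h2])
    (by
      intro f hf
      rw [decide_eq_true_eq] at hf
      exact ⟨hf.1, hf.2.1⟩)
    (by
      intro f hf a ha
      rw [decide_eq_true_eq] at hf
      obtain ⟨b, hb⟩ := IsP_ext hU hc hc' hB hB' hBB f hf a ha
      exact ⟨b, by rw [decide_eq_true_eq]; exact hb⟩)
    (by
      intro f hf b hb
      rw [decide_eq_true_eq] at hf
      have e1 : (f.map Prod.swap).map Prod.fst = f.map Prod.snd := by
        rw [List.map_map]; rfl
      obtain ⟨a, ha⟩ := IsP_ext hU hc' hc hB' hB (fun ℓ => by rw [sx_comm]; exact hBB ℓ)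
        (f.map Prod.swap) (IsP_swap hf) b (by rw [e1]; exact hb)
      refine ⟨a, ?_⟩
      rw [decide_eq_true_eq]
      have h1 := IsP_swap ha
      have e2 : ((f.map Prod.swap) ++ [(b, a)]).map Prod.swap = f ++ [(a, b)] := by
        rw [List.map_append, List.map_map]
        simp
      rwa [e2] at h1)
  refine ⟨g, fun h1 h2 => hg1 (IsP_comp c c' h1 h2), hg2, ?_⟩
  intro xs hxs
  obtain ⟨n, hn⟩ := hF3 (mx xs + 1)
  have hmx : ∀ a ∈ xs, a ≤ mx xs := by
    intro a ha
    clear hn hxs
    induction xs with
    | nil => simp at ha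
    | cons b xs ih =>
      rw [List.mem_cons] at ha
      simp only [mx, List.foldr_cons]
      rcases ha with rfl | ha
      · exact le_max_left _ _
      · exact le_trans (ih ha) (le_max_right _ _)
  have hmem : ∀ a ∈ xs, a ∈ (F n).map Prod.fst := fun a ha => hn a (by have := hmx a ha; omega)
  have hP := hF1 n
  rw [decide_eq_true_eq] at hP
  obtain ⟨p1, p2, p3⟩ := hP
  have key : ∀ a ∈ xs, ((F n)[((F n).map Prod.fst).idxOf a]?).getD (0, 0) = (a, g a) := by
    intro a ha
    have h1 : ((F n).map Prod.fst).idxOf a < ((F n).map Prod.fst).length :=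
      List.idxOf_lt_length_iff.2 (hmem a ha)
    have h2 : ((F n).map Prod.fst).idxOf a < (F n).length := by
      rw [List.length_map] at h1; exact h1
    rw [List.getElem?_eq_getElem h2, Option.getD_some]
    have h3 : ((F n)[((F n).map Prod.fst).idxOf a]).1 = a := by
      have := List.getElem_idxOf h1
      rw [List.getElem_map] at this
      exact this
    have h4 := hF2 n _ (List.getElem_mem h2)
    rw [h3] at h4
    exact Prod.ext h3 h4
  have h5 := p3 (xs.map fun a => ((F n).map Prod.fst).idxOf a)
    (by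
      refine List.Nodup.map_on ?_ hxs
      intro a ha b hb hab
      exact (List.idxOf_inj (hmem a ha)).1 hab)
    (by
      intro i hi
      rw [List.mem_map] at hi
      obtain ⟨a, ha, rfl⟩ := hi
      have := List.idxOf_lt_length_iff.2 (hmem a ha)
      rwa [List.length_map] at this)
  have e1 : ((xs.map fun a => ((F n).map Prod.fst).idxOf a).map
      fun i => (((F n)[i]?).getD (0, 0)).1) = xs := by
    rw [List.map_map]
    conv_rhs => rw [← List.map_id xs]
    apply List.map_congr_left
    intro a ha
    simp only [Function.comp_apply, key a ha, id]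
  have e2 : ((xs.map fun a => ((F n).map Prod.fst).idxOf a).map
      fun i => (((F n)[i]?).getD (0, 0)).2) = xs.map g := by
    rw [List.map_map]
    apply List.map_congr_left
    intro a ha
    simp only [Function.comp_apply, key a ha]
  rw [e1, e2] at h5
  exact h5.symm

/-- The relations of a copy of `MC c` are those of a shifted colouring. -/
theorem Rl_of_iso {c c' : List ℕ → List Bool} (hc : ∀ xs, (c xs).length = xs.length)
    (hc' : ∀ xs, (c' xs).length = xs.length) {C : Str} {g g' : ℕ → ℕ} (hg : IsIso LL (MC c) C g)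
    (h1 : ∀ a, g' (g a) = a) (h2 : ∀ b, g (g' b) = b) (w : ℕ → Bool)
    (h : ∀ S : List ℕ, S.Nodup → c' S = sx (c (S.map g')) (pre w S.length)) (N : ℕ) (xs : List ℕ)
    (hN : xs.length = N) : C.R N xs ↔ Rl c' N xs := by
  have hinj : Function.Injective g' := fun a b hab => by rw [← h2 a, ← h2 b, hab]
  have e1 : (xs.map g').map g = xs := by
    rw [List.map_map]
    conv_rhs => rw [← List.map_id xs]
    exact List.map_congr_left fun x _ => h2 x
  have h3 := hg.2.1 N (xs.map g') (by rw [List.length_map, hN]; rfl)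
  rw [e1] at h3
  rw [← h3]
  show Rl c N (xs.map g') ↔ Rl c' N xs
  unfold Rl
  rw [← List.map_take, ← List.map_drop, ← List.map_take, List.nodup_map_iff hinj,
    List.nodup_map_iff hinj]
  refine and_congr_right fun hlt => and_congr_right fun hn1 => and_congr_right fun hn2 => ?_
  rw [h _ hn1, h _ hn2]
  have hNpos : (N - 1).unpair.1 + (N - 1).unpair.2 + 1 ≤ N := by
    have := Nat.add_le_pair (N - 1).unpair.1 (N - 1).unpair.2
    rw [Nat.pair_unpair] at this
    omega
  have l1 : (xs.take (N - 1).unpair.1).length = (N - 1).unpair.1 := by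
    rw [List.length_take]; omega
  have l2 : ((xs.drop (N - 1).unpair.1).take ((N - 1).unpair.2 + 1)).length =
      (N - 1).unpair.2 + 1 := by
    rw [List.length_take, List.length_drop]; omega
  rw [getD_sx _ _ (by rw [hc, List.length_map, pre_len]),
    getD_sx _ _ (by rw [hc, List.length_map, pre_len]), getD_pre _ _ _ (by rw [l1]; exact hlt),
    getD_pre _ _ _ (by rw [l2]; omega)]
  constructor
  · intro h; rw [h]
  · intro h; simpa using h

/-- If the relative colours of the copy `C` can be shifted by a computable sequence into the coset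
of `B'`, then `C` is computably isomorphic to the standard copy for `B'`. -/
theorem copy_of_shift {U : List Bool → Prop} (hU : IsU U) {B B' : ℕ → List Bool}
    {c c' : List ℕ → List Bool} (hc : IsG U B c) (hc' : IsG U B' c')
    (hB : ∀ ℓ, (B ℓ).length = ℓ) (hB' : ∀ ℓ, (B' ℓ).length = ℓ) {C : Str} {g g' : ℕ → ℕ}
    (hg : IsIso LL (MC c) C g)
    (h1 : ∀ a, g' (g a) = a) (h2 : ∀ b, g (g' b) = b) (hC : Computable (mcol C))
    (hcc : Computable c') (a : ℕ → Bool) (ha : Computable a)
    (haU : ∀ ℓ, U (sx (sx (pre a ℓ) (mcol C (List.range ℓ))) (B' ℓ))) :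
    ∃ f, Computable f ∧ IsIso LL (MC c') C f := by
  set τ : ℕ → Bool := fun k => (c ((List.range (k + 1)).map g')).getD k false with hτ
  have hm : ∀ S : List ℕ, S.Nodup → mcol C S = sx (c (S.map g')) (pre τ S.length) :=
    fun S hS => mcol_eq c hc.len C g g' hg h1 h2 S hS
  set c'' : List ℕ → List Bool := fun S => sx (mcol C S) (pre a S.length) with hc''
  have mlen : ∀ S, (mcol C S).length = S.length := by
    intro S
    unfold mcol
    rw [List.length_map, List.length_range]
  have hlen'' : ∀ S, (c'' S).length = S.length := by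
    intro S
    rw [hc'']
    simp only
    rw [sx_len (by rw [mlen, pre_len]), mlen]
  have hc''eq : ∀ S : List ℕ, S.Nodup →
      c'' S = sx (c (S.map g')) (pre (fun k => xor (τ k) (a k)) S.length) := by
    intro S hS
    rw [pre_xor, ← sx_assoc, ← hm S hS]
  have hG : IsG U B' c'' := by
    refine isG_shift hU hc hB hB' g g' h1 h2 _ ?_ c'' hlen'' hc''eq
    intro ℓ
    -- `τ + a + B + B'`
    have u1 := haU ℓ
    have u2 := hm (List.range ℓ) List.nodup_range
    rw [List.length_range] at u2
    have hninj : Function.Injective g' := fun x y hxy => by rw [← h2 x, ← h2 y, hxy]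
    have u3 := hc.mem ((List.range ℓ).map g') (List.nodup_range.map hninj)
    rw [List.length_map, List.length_range] at u3
    have l1 : (c ((List.range ℓ).map g')).length = ℓ := by
      rw [hc.len, List.length_map, List.length_range]
    have u4 := hU.add _ _ (by
      rw [sx_len, sx_len, sx_len, l1, pre_len]
      · rw [l1, hB]
      · rw [pre_len, mlen, List.length_range]
      · rw [sx_len, pre_len, hB']
        rw [pre_len, mlen, List.length_range]) u1 u3
    convert u4 using 1
    rw [u2, pre_xor]
    apply list_ext_getD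
    · rw [sx_len, sx_len, sx_len, sx_len, sx_len, sx_len] <;>
        simp [sx, l1, pre_len, hB, hB']
    · intro k hk
      have hl : ∀ x y : List Bool, x.length = ℓ → y.length = ℓ →
          (sx x y).length = ℓ := fun x y hx hy => by rw [sx_len (by rw [hx, hy]), hx]
      have e : ∀ x y : List Bool, x.length = ℓ → y.length = ℓ →
          (sx x y).getD k false = xor (x.getD k false) (y.getD k false) :=
        fun x y hx hy => getD_sx x y (by rw [hx, hy]) k
      have p1 := pre_len τ ℓ
      have p2 := pre_len a ℓ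
      rw [e _ _ (hl _ _ (hl _ _ p1 p2) (hB ℓ)) (hB' ℓ), e _ _ (hl _ _ p1 p2) (hB ℓ),
        e _ _ p1 p2,
        e _ _ (hl _ _ (hl _ _ p2 (hl _ _ l1 p1)) (hB' ℓ)) (hl _ _ l1 (hB ℓ)),
        e _ _ (hl _ _ p2 (hl _ _ l1 p1)) (hB' ℓ), e _ _ p2 (hl _ _ l1 p1), e _ _ l1 p1,
        e _ _ l1 (hB ℓ)]
      cases (pre τ ℓ).getD k false <;> cases (pre a ℓ).getD k false <;>
        cases (B ℓ).getD k false <;> cases (B' ℓ).getD k false <;>
        cases (c ((List.range ℓ).map g')).getD k false <;> rfl
  have hBB : ∀ ℓ, U (sx (B' ℓ) (B' ℓ)) := by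
    intro ℓ
    rw [sx_self, hB']
    exact hU.zero ℓ
  obtain ⟨f, hf1, hf2, hf3⟩ := comp_iso hU hc' hG hB' hB' hBB
  have hc''c : Computable c'' := shift_comp hC ha
  refine ⟨f, hf1 hcc hc''c, ?_⟩
  refine iso_of c' c'' hc'.len hlen'' (fun _ => false) C ?_ f hf2 ?_
  · intro N xs hN
    exact Rl_of_iso hc.len hlen'' hg h1 h2 _ hc''eq N xs hN
  · intro xs hxs
    rw [hf3 xs hxs]
    have : pre (fun _ => false) xs.length = Z xs.length := by
      unfold pre Z
      apply List.ext_getElem <;> simp
    rw [this, sx_Z' (hc'.len xs)]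

end Pool.Agent.Helper750.OC
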